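import Pool.Agent.H648R3.SSP.Flow
import Pool.Agent.NPC.Dec

/-!
# The subset sum problem of a finitely generated group
-/

namespace Pool.Agent.NPC.SSP648

open Pool.Agent.NPC Pool.Agent.H648R3.SSP

/-- Members of `Fin n` are coded as natural numbers. -/
instance finEnc (n : ℕ) : TEnc (Fin n) := ⟨fun i => toT (i : ℕ), fun _ _ h => Fin.ext (TEnc.inj h)⟩

/-- The subset sum problem of the group `G` with the generators `g 0, ..., g (n - 1)`: an instance
is a list of words `w 0, ..., w (k - 1)` together with a word `w` (a word is a list of letters, a
letter is a generator index with a sign), and the question is whether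
`w = w 0 ^ ε 0 * ... * w (k - 1) ^ ε (k - 1)` in `G` for some exponents in `{0, 1}`. -/
def SubsetSum {G : Type*} [Group G] {n : ℕ} (g : Fin n → G)
    (I : List (List (Fin n × Bool)) × List (Fin n × Bool)) : Prop :=
  ∃ ε : Fin I.1.length → Bool,
    wval g I.2 = (List.ofFn fun i => if ε i then wval g (I.1.get i) else 1).prod

/-- Selection of a sublist by a list of bits. -/
def selW {n : ℕ} (b : List Bool) (ws : List (List (Fin n × Bool))) : List (Fin n × Bool) :=
  (b.zip ws).flatMap fun p => if p.1 then p.2 else []

section
variable {G : Type*} [Group G] {n : ℕ} (g : Fin n → G)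

theorem wval_append (u v : List (Fin n × Bool)) : wval g (u ++ v) = wval g u * wval g v := by
  simp [wval]

@[simp] theorem wval_nil : wval g [] = 1 := rfl

/-- The formal inverse of a word. -/
def winv (w : List (Fin n × Bool)) : List (Fin n × Bool) := (w.map fun l => (l.1, !l.2)).reverse

theorem wval_winv (w : List (Fin n × Bool)) : wval g (winv w) = (wval g w)⁻¹ := by
  induction w with
  | nil => simp [winv]
  | cons l w ih =>
    have h : winv (l :: w) = winv w ++ [(l.1, !l.2)] := by simp [winv]
    rw [h, wval_append, ih]
    have h2 : wval g (l :: w) = lval g l * wval g w := by simp [wval]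
    rw [h2, mul_inv_rev]
    congr 1
    obtain ⟨i, b⟩ := l
    cases b <;> simp [wval, lval]

theorem wval_selW (b : List Bool) (ws : List (List (Fin n × Bool)))
    (h : b.length = ws.length) : wval g (selW b ws) =
      (List.ofFn fun i : Fin ws.length => if b.getD i false then wval g (ws.get i) else 1).prod := by
  induction ws generalizing b with
  | nil =>
    simp only [List.length_nil, List.length_eq_zero_iff] at h
    subst h
    simp [selW]
  | cons w ws ih =>
    cases b with
    | nil => simp at h
    | cons c b =>
      have h1 : selW (c :: b) (w :: ws) = (if c then w else []) ++ selW b ws := by simp [selW]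
      rw [h1, wval_append, ih b (by simpa using h), List.ofFn_succ, List.prod_cons]
      congr 1
      cases c <;> simp

theorem subsetSum_iff (I : List (List (Fin n × Bool)) × List (Fin n × Bool)) :
    SubsetSum g I ↔ ∃ b : List Bool, b.length = I.1.length ∧
      wval g (selW b I.1 ++ winv I.2) = 1 := by
  constructor
  · rintro ⟨ε, hε⟩
    refine ⟨List.ofFn ε, by simp, ?_⟩
    rw [wval_append, wval_winv, mul_inv_eq_one, wval_selW g _ _ (by simp), hε]
    congr 2
    funext i
    congr 1
    simp [List.getD_eq_getElem?_getD]
  · rintro ⟨b, hb, h⟩
    rw [wval_append, wval_winv, mul_inv_eq_one, wval_selW g _ _ hb] at h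
    exact ⟨fun i => b.getD i false, h.symm⟩

end

end Pool.Agent.NPC.SSP648
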