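import Pool.Agent.H958R2.NLT.X13Hard

/-!
# Exact cover by lists of coordinates, each coordinate occurring at most three times
-/

namespace Pool.Agent.NPC.SSP648

open Pool.Agent.H958R2 Pool.Agent.NPC.H958NLT

/-- Selection of a sublist of lists. -/
def selL {α : Type} (b : List Bool) (L : List (List α)) : List α :=
  (b.zip L).flatMap fun p => if p.1 then p.2 else []

/-- Exact cover. -/
def EC (I : List (List ℕ) × List Unit) : Prop :=
  ∃ b : List Bool, b.length = I.1.length ∧ ∀ e < I.2.length, (selL b I.1).count e = 1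

/-- The promise. -/
def PrEC (I : List (List ℕ) × List Unit) : Prop :=
  (∀ l ∈ I.1, ∀ e ∈ l, e < I.2.length) ∧ ∀ e, I.1.flatten.count e ≤ 3

/-- The occurrences of a literal. -/
def occ (φ : List (Lit ℕ × Lit ℕ × Lit ℕ)) (x : Lit ℕ) : List ℕ :=
  φ.zipIdx.flatMap fun p => (if p.1.1 = x then [p.2] else []) ++
    (if p.1.2.1 = x then [p.2] else []) ++ (if p.1.2.2 = x then [p.2] else [])

/-- The item of a literal. -/
def item (φ : List (Lit ℕ × Lit ℕ × Lit ℕ)) (j : ℕ) : List ℕ :=
  (φ.length + j / 2) :: occ φ (decide (j % 2 = 0), j / 2)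

/-- The instance. -/
def ecred (φ : List (Lit ℕ × Lit ℕ × Lit ℕ)) : List (List ℕ) × List Unit :=
  ((List.range (6 * φ.length)).map (item φ), List.replicate (4 * φ.length) ())

theorem eq_map_range (b : List Bool) (N : ℕ) (h : b.length = N) :
    b = (List.range N).map fun j => b.getD j false := by
  subst h
  apply List.ext_getElem
  · simp
  · intro i h1 h2
    simp [List.getD_eq_getElem?_getD, h1]

theorem selL_map {α : Type} (ε : ℕ → Bool) (f : ℕ → List α) (N : ℕ) :
    selL ((List.range N).map ε) ((List.range N).map f) =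
      (List.range N).flatMap fun j => if ε j then f j else [] := by
  rw [selL, List.zip_map', List.flatMap_map]

theorem count_sel (ε : ℕ → Bool) (f : ℕ → List ℕ) (N e : ℕ) :
    ((List.range N).flatMap fun j => if ε j then f j else []).count e =
      ∑ j ∈ Finset.range N, if ε j then (f j).count e else 0 := by
  induction N with
  | zero => simp
  | succ N ih =>
    rw [List.range_succ, List.flatMap_append, List.count_append, ih, Finset.sum_range_succ]
    simp only [List.flatMap_cons, List.flatMap_nil, List.append_nil]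
    congr 1
    split_ifs <;> simp

theorem sum_two (F : ℕ → ℕ) (k : ℕ) :
    ∑ j ∈ Finset.range (2 * k), F j = ∑ v ∈ Finset.range k, (F (2 * v) + F (2 * v + 1)) := by
  induction k with
  | zero => simp
  | succ k ih =>
    rw [Finset.sum_range_succ, ← ih, show 2 * (k + 1) = 2 * k + 1 + 1 from rfl,
      Finset.sum_range_succ, Finset.sum_range_succ]
    ring

theorem count_ite_single (e k : ℕ) (P : Prop) [Decidable P] :
    (if P then [k] else []).count e = if P then (if k = e then 1 else 0) else 0 := by
  split_ifs with h1 h2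
  · subst h2; simp
  · rw [List.count_singleton]; simp [h2]
  · rfl

/-- The number of positions of a literal in a clause. -/
def ncl (x : Lit ℕ) (c : Lit ℕ × Lit ℕ × Lit ℕ) : ℕ :=
  (if c.1 = x then 1 else 0) + (if c.2.1 = x then 1 else 0) + (if c.2.2 = x then 1 else 0)

theorem count_cl (x : Lit ℕ) (c : Lit ℕ × Lit ℕ × Lit ℕ) (k e : ℕ) :
    ((if c.1 = x then [k] else []) ++ (if c.2.1 = x then [k] else []) ++
      (if c.2.2 = x then [k] else [])).count e = if k = e then ncl x c else 0 := by
  rw [List.count_append, List.count_append, count_ite_single, count_ite_single, count_ite_single,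
    ncl]
  by_cases h : k = e
  · simp only [h, if_true]
  · simp only [h, if_false, ite_self]

theorem count_occ_aux (φ : List (Lit ℕ × Lit ℕ × Lit ℕ)) (x : Lit ℕ) (e k : ℕ) :
    ((φ.zipIdx k).flatMap fun p => (if p.1.1 = x then [p.2] else []) ++
      (if p.1.2.1 = x then [p.2] else []) ++ (if p.1.2.2 = x then [p.2] else [])).count e =
      (if k ≤ e then φ[e - k]? else none).elim 0 (ncl x) := by
  induction φ generalizing k with
  | nil => simp
  | cons c φ ih =>
    rw [List.zipIdx_cons, List.flatMap_cons, List.count_append, ih, count_cl]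
    rcases lt_trichotomy k e with h | h | h
    · rw [if_neg h.ne, if_pos (show k + 1 ≤ e by omega), if_pos (show k ≤ e by omega),
        show e - k = (e - (k + 1)) + 1 by omega, List.getElem?_cons_succ, zero_add]
    · subst h
      rw [if_pos rfl, if_neg (show ¬ (k + 1 ≤ k) by omega), if_pos (le_refl k), Nat.sub_self,
        List.getElem?_cons_zero]
      rfl
    · rw [if_neg h.ne', if_neg (show ¬ (k + 1 ≤ e) by omega), if_neg (show ¬ (k ≤ e) by omega)]
      rfl

theorem count_occ (φ : List (Lit ℕ × Lit ℕ × Lit ℕ)) (x : Lit ℕ) (e : ℕ) :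
    (occ φ x).count e = (φ[e]?).elim 0 (ncl x) := by
  have h := count_occ_aux φ x e 0
  rw [if_pos (Nat.zero_le _), Nat.sub_zero] at h
  exact h

/-- The value of a literal under a selection. -/
def lv (ε : ℕ → Bool) (x : Lit ℕ) : ℕ := if ε (2 * x.2 + (if x.1 then 0 else 1)) then 1 else 0

/-- The value of a clause under a selection. -/
def cv (ε : ℕ → Bool) (c : Lit ℕ × Lit ℕ × Lit ℕ) : ℕ := lv ε c.1 + lv ε c.2.1 + lv ε c.2.2

theorem sum_lit (k : ℕ) (ε : ℕ → Bool) (x : Lit ℕ) (hx : x.2 < k) :
    ∑ v ∈ Finset.range k, ((if ε (2 * v) then (if x = (true, v) then 1 else 0) else 0) +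
      (if ε (2 * v + 1) then (if x = (false, v) then 1 else 0) else 0)) = lv ε x := by
  rw [lv, Finset.sum_eq_single x.2]
  · obtain ⟨s, v⟩ := x
    cases s <;> simp
  · intro v _ hv
    obtain ⟨s, w⟩ := x
    have h : w ≠ v := fun h => hv h.symm
    simp [h]
  · intro h; exact absurd (Finset.mem_range.2 hx) h

theorem sum_clause (k : ℕ) (ε : ℕ → Bool) (c : Lit ℕ × Lit ℕ × Lit ℕ)
    (h1 : c.1.2 < k) (h2 : c.2.1.2 < k) (h3 : c.2.2.2 < k) :
    ∑ v ∈ Finset.range k, ((if ε (2 * v) then ncl (true, v) c else 0) +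
      (if ε (2 * v + 1) then ncl (false, v) c else 0)) = cv ε c := by
  rw [cv, ← sum_lit k ε _ h1, ← sum_lit k ε _ h2, ← sum_lit k ε _ h3, ← Finset.sum_add_distrib,
    ← Finset.sum_add_distrib]
  refine Finset.sum_congr rfl fun v _ => ?_
  simp only [ncl]
  split_ifs <;> rfl

theorem count_item (φ : List (Lit ℕ × Lit ℕ × Lit ℕ)) (j e : ℕ) :
    (item φ j).count e = (occ φ (decide (j % 2 = 0), j / 2)).count e +
      (if φ.length + j / 2 = e then 1 else 0) := by
  rw [item, List.count_cons]
  congr 1
  by_cases h : φ.length + j / 2 = e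
  · simp [h]
  · simp [h]

theorem count_ec (φ : List (Lit ℕ × Lit ℕ × Lit ℕ)) (hφ : Bd13 φ) (ε : ℕ → Bool) (e : ℕ) :
    ((List.range (6 * φ.length)).flatMap fun j => if ε j then item φ j else []).count e =
      (φ[e]?).elim 0 (cv ε) +
      (if φ.length ≤ e ∧ e < 4 * φ.length then
        (if ε (2 * (e - φ.length)) then 1 else 0) + (if ε (2 * (e - φ.length) + 1) then 1 else 0)
      else 0) := by
  rw [count_sel, show 6 * φ.length = 2 * (3 * φ.length) by ring, sum_two]
  have h1 : ∀ v, (item φ (2 * v)).count e = (φ[e]?).elim 0 (ncl (true, v)) +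
      (if φ.length + v = e then 1 else 0) := by
    intro v
    rw [count_item, show 2 * v / 2 = v by omega, show 2 * v % 2 = 0 by omega, count_occ]
    rfl
  have h2 : ∀ v, (item φ (2 * v + 1)).count e = (φ[e]?).elim 0 (ncl (false, v)) +
      (if φ.length + v = e then 1 else 0) := by
    intro v
    rw [count_item, show (2 * v + 1) / 2 = v by omega, show (2 * v + 1) % 2 = 1 by omega,
      count_occ]
    rfl
  have h3 : ∑ v ∈ Finset.range (3 * φ.length),
      ((if ε (2 * v) then (item φ (2 * v)).count e else 0) +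
        (if ε (2 * v + 1) then (item φ (2 * v + 1)).count e else 0)) =
      (∑ v ∈ Finset.range (3 * φ.length), ((if ε (2 * v) then (φ[e]?).elim 0 (ncl (true, v)) else 0) +
        (if ε (2 * v + 1) then (φ[e]?).elim 0 (ncl (false, v)) else 0))) +
      ∑ v ∈ Finset.range (3 * φ.length),
        ((if ε (2 * v) then (if φ.length + v = e then 1 else 0) else 0) +
        (if ε (2 * v + 1) then (if φ.length + v = e then 1 else 0) else 0)) := by
    rw [← Finset.sum_add_distrib]
    refine Finset.sum_congr rfl fun v _ => ?_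
    rw [h1, h2]
    by_cases c1 : ε (2 * v) = true <;> by_cases c2 : ε (2 * v + 1) = true <;>
      simp only [c1, c2, if_true, if_false, Bool.false_eq_true] <;> ring
  rw [h3]
  congr 1
  · cases hc : φ[e]? with
    | none => simp
    | some c =>
      have hmem : c ∈ φ := List.mem_of_getElem? hc
      obtain ⟨b1, b2, b3⟩ := hφ c hmem
      exact sum_clause _ ε c b1 b2 b3
  · by_cases h : φ.length ≤ e ∧ e < 4 * φ.length
    · rw [if_pos h, Finset.sum_eq_single (e - φ.length)]
      · rw [if_pos (show φ.length + (e - φ.length) = e by omega)]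
      · intro v _ hv
        rw [if_neg (show ¬ (φ.length + v = e) by omega)]
        simp
      · intro h'
        exact absurd (Finset.mem_range.2 (by omega)) h'
    · rw [if_neg h]
      refine Finset.sum_eq_zero fun v hv => ?_
      have hv' := Finset.mem_range.1 hv
      rw [if_neg (show ¬ (φ.length + v = e) by omega)]
      simp

theorem ecred_iff (φ : List (Lit ℕ × Lit ℕ × Lit ℕ)) (hφ : Bd13 φ) : X13 φ ↔ EC (ecred φ) := by
  have hEC : EC (ecred φ) ↔ ∃ ε : ℕ → Bool, ∀ e < 4 * φ.length,
      ((List.range (6 * φ.length)).flatMap fun j => if ε j then item φ j else []).count e = 1 := by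
    simp only [EC, ecred, List.length_map, List.length_range, List.length_replicate]
    constructor
    · rintro ⟨b, hb, h⟩
      refine ⟨fun j => b.getD j false, fun e he => ?_⟩
      rw [← h e he, ← selL_map, ← eq_map_range b _ hb]
    · rintro ⟨ε, h⟩
      refine ⟨(List.range (6 * φ.length)).map ε, by simp, fun e he => ?_⟩
      rw [selL_map]
      exact h e he
  rw [hEC]
  constructor
  · rintro ⟨τ, hτ⟩
    refine ⟨fun j => τ (j / 2) == decide (j % 2 = 0), fun e he => ?_⟩
    rw [count_ec φ hφ]
    have hlit : ∀ x : Lit ℕ, lv (fun j => τ (j / 2) == decide (j % 2 = 0)) x =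
        if (τ x.2 == x.1) then 1 else 0 := by
      rintro ⟨s, v⟩
      rw [lv]
      cases s
      · simp only [Bool.false_eq_true, if_false]
        rw [show (2 * v + 1) / 2 = v by omega, show (2 * v + 1) % 2 = 1 by omega]
        simp
      · simp only [if_true, add_zero]
        rw [show (2 * v) / 2 = v by omega, show (2 * v) % 2 = 0 by omega]
        simp
    cases hc : φ[e]? with
    | none =>
      have h1 : φ.length ≤ e := by simpa using hc
      rw [if_pos ⟨h1, he⟩]
      simp only [Option.elim_none]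
      rw [show 2 * (e - φ.length) / 2 = e - φ.length by omega,
        show (2 * (e - φ.length) + 1) / 2 = e - φ.length by omega,
        show 2 * (e - φ.length) % 2 = 0 by omega, show (2 * (e - φ.length) + 1) % 2 = 1 by omega]
      cases τ (e - φ.length) <;> simp
    | some c =>
      have h1 : e < φ.length := by
        by_contra h
        rw [List.getElem?_eq_none (by omega)] at hc
        simp at hc
      have h2 := hτ c (List.mem_of_getElem? hc)
      rw [if_neg (show ¬ (φ.length ≤ e ∧ e < 4 * φ.length) by omega)]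
      simp only [Option.elim_some, cv, hlit]
      revert h2
      cases (τ c.1.2 == c.1.1) <;> cases (τ c.2.1.2 == c.2.1.1) <;>
        cases (τ c.2.2.2 == c.2.2.1) <;> simp [one3]
  · rintro ⟨ε, h⟩
    refine ⟨fun v => ε (2 * v), fun c hc => ?_⟩
    have hv : ∀ v < 3 * φ.length, ε (2 * v + 1) = !(ε (2 * v)) := by
      intro v hv
      have h1 := h (φ.length + v) (by omega)
      rw [count_ec φ hφ, List.getElem?_eq_none (by omega), if_pos ⟨by omega, by omega⟩] at h1
      simp only [Nat.add_sub_cancel_left, zero_add, Option.elim_none] at h1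
      cases h2 : ε (2 * v) <;> cases h3 : ε (2 * v + 1) <;> simp [h2, h3] at h1 ⊢
    have hlit : ∀ x : Lit ℕ, x.2 < 3 * φ.length →
        lv ε x = if (ε (2 * x.2) == x.1) then 1 else 0 := by
      rintro ⟨s, v⟩ hx
      rw [lv]
      cases s
      · simp only [Bool.false_eq_true, if_false]
        rw [hv v hx]; simp
      · simp
    obtain ⟨e, he, rfl⟩ := List.getElem_of_mem hc
    obtain ⟨b1, b2, b3⟩ := hφ _ hc
    have h1 := h e (by omega)
    rw [count_ec φ hφ, List.getElem?_eq_getElem he,
      if_neg (show ¬ (φ.length ≤ e ∧ e < 4 * φ.length) by omega)] at h1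
    simp only [Option.elim_some, cv, hlit _ b1, hlit _ b2, hlit _ b3] at h1
    revert h1
    cases (ε (2 * φ[e].1.2) == φ[e].1.1) <;> cases (ε (2 * φ[e].2.1.2) == φ[e].2.1.1) <;>
      cases (ε (2 * φ[e].2.2.2) == φ[e].2.2.1) <;> simp [one3]

theorem ecred_pr (φ : List (Lit ℕ × Lit ℕ × Lit ℕ)) (hφ : Bd13 φ) : PrEC (ecred φ) := by
  have hcount : ∀ e, ((ecred φ).1).flatten.count e = ((List.range (6 * φ.length)).flatMap
      fun j => if (fun _ => true : ℕ → Bool) j then item φ j else []).count e := by
    intro e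
    simp only [ecred, if_true]
    rw [List.flatMap_def]
  have hcv : ∀ c, cv (fun _ => true) c = 3 := fun c => rfl
  constructor
  · intro l hl e he
    have h1 : 0 < ((ecred φ).1).flatten.count e :=
      List.count_pos_iff.2 (List.mem_flatten.2 ⟨l, hl, he⟩)
    rw [hcount, count_ec φ hφ] at h1
    simp only [ecred, List.length_replicate]
    by_contra hne
    rw [List.getElem?_eq_none (by omega),
      if_neg (show ¬ (φ.length ≤ e ∧ e < 4 * φ.length) by omega)] at h1
    simp at h1
  · intro e
    rw [hcount, count_ec φ hφ]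
    cases hc : φ[e]? with
    | none =>
      simp only [if_true, Option.elim_none]
      split_ifs <;> omega
    | some c =>
      have h1 : e < φ.length := by
        by_contra h
        rw [List.getElem?_eq_none (by omega)] at hc
        simp at hc
      rw [if_neg (show ¬ (φ.length ≤ e ∧ e < 4 * φ.length) by omega), Option.elim_some, hcv]

theorem ecred_poly : Poly ecred := by
  have hlen : UPoly (fun φ : List (Lit ℕ × Lit ℕ × Lit ℕ) => φ.length) := UPoly.length Poly.id
  refine Poly.pair ?_ ?_
  · refine Poly.map (F := fun φ j => item φ j)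
      (UPoly.range (UPoly.mul (UPoly.const 6) hlen)) ?_
    have hj : Poly (fun p : List (Lit ℕ × Lit ℕ × Lit ℕ) × ℕ => p.2 / 2) :=
      Poly.div (Poly.snd Poly.id) (Poly.const 2)
    have hx : Poly (fun p : List (Lit ℕ × Lit ℕ × Lit ℕ) × ℕ =>
        ((decide (p.2 % 2 = 0), p.2 / 2) : Lit ℕ)) :=
      Poly.pair (Poly.decide_eq (Poly.mod (Poly.snd Poly.id) (Poly.const 2)) (Poly.const 0)) hj
    refine Poly.cons (Poly.add (Poly.length (Poly.fst Poly.id)) hj) ?_
    refine Poly.flatMap (F := fun (p : List (Lit ℕ × Lit ℕ × Lit ℕ) × ℕ)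
      (c : (Lit ℕ × Lit ℕ × Lit ℕ) × ℕ) =>
      (if c.1.1 = (decide (p.2 % 2 = 0), p.2 / 2) then [c.2] else []) ++
      (if c.1.2.1 = (decide (p.2 % 2 = 0), p.2 / 2) then [c.2] else []) ++
      (if c.1.2.2 = (decide (p.2 % 2 = 0), p.2 / 2) then [c.2] else []))
      (Poly.zipIdx (Poly.fst Poly.id)) ?_
    have hx' := hx.comp (Poly.fst (α := (List (Lit ℕ × Lit ℕ × Lit ℕ) × ℕ) ×
      ((Lit ℕ × Lit ℕ × Lit ℕ) × ℕ)) Poly.id)
    have hc : Poly (fun p : (List (Lit ℕ × Lit ℕ × Lit ℕ) × ℕ) ×
      ((Lit ℕ × Lit ℕ × Lit ℕ) × ℕ) => p.2) := Poly.snd Poly.id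
    refine Poly.append (Poly.append ?_ ?_) ?_
    · exact Poly.ite (Poly.decide_eq (Poly.fst (Poly.fst hc)) hx')
        (Poly.cons (Poly.snd hc) (Poly.const [])) (Poly.const [])
    · exact Poly.ite (Poly.decide_eq (Poly.fst (Poly.snd (Poly.fst hc))) hx')
        (Poly.cons (Poly.snd hc) (Poly.const [])) (Poly.const [])
    · exact Poly.ite (Poly.decide_eq (Poly.snd (Poly.snd (Poly.fst hc))) hx')
        (Poly.cons (Poly.snd hc) (Poly.const [])) (Poly.const [])
  · exact UPoly.mul (UPoly.const 4) hlen

theorem hardPr_EC : HardPr PrEC EC :=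
  hardPr_X13.trans ecred_poly ecred_pr ecred_iff

end Pool.Agent.NPC.SSP648
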