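import Pool.Agent.H648R3.SSP.Grb

/-!
# The flow of a word, and the word problem of a metabelian group
-/

namespace Pool.Agent.H648R3.SSP

/-- The value of a letter. -/
def lval {G : Type*} [Group G] {n : ℕ} (g : Fin n → G) (l : Fin n × Bool) : G :=
  if l.2 then g l.1 else (g l.1)⁻¹

/-- The value of a word. -/
def wval {G : Type*} [Group G] {n : ℕ} (g : Fin n → G) (w : List (Fin n × Bool)) : G :=
  (w.map (lval g)).prod

/-- The commutator subgroup is commutative. -/
class Metab (G : Type*) [Group G] : Prop where
  comm : ∀ a ∈ commutator G, ∀ b ∈ commutator G, a * b = b * a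

instance {G : Type*} [Group G] [Metab G] : CommGroup (commutator G) :=
  { (inferInstance : Group (commutator G)) with
    mul_comm := fun a b => Subtype.ext (Metab.comm a.1 a.2 b.1 b.2) }

section flow

variable {n : ℕ}

/-- Increase a coordinate. -/
def incr (q : Fin n → ℕ) (i : Fin n) : Fin n → ℕ := fun j => if j = i then q j + 1 else q j

/-- Decrease a coordinate. -/
def decr (q : Fin n → ℕ) (i : Fin n) : Fin n → ℕ := fun j => if j = i then q j - 1 else q j

/-- One step of the computation of the flow. -/
def fstep (l : Fin n × Bool) (st : (Fin n → ℕ) × List (ℤ × Mon n (Fin n))) :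
    (Fin n → ℕ) × List (ℤ × Mon n (Fin n)) :=
  if l.2 then (decr st.1 l.1, (1, (decr st.1 l.1, l.1)) :: st.2)
  else (incr st.1 l.1, (-1, (st.1, l.1)) :: st.2)

/-- The flow of a word, ending at the point with all coordinates `N`. -/
def flow (N : ℕ) (w : List (Fin n × Bool)) : (Fin n → ℕ) × List (ℤ × Mon n (Fin n)) :=
  w.foldr fstep (fun _ => N, [])

/-- The module element of a list of terms. -/
noncomputable def toF {M : Type} (L : List (ℤ × M)) : M →₀ ℤ :=
  (L.map fun t => Finsupp.single t.2 t.1).sum

theorem toF_cons {M : Type} (t : ℤ × M) (L : List (ℤ × M)) :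
    toF (t :: L) = Finsupp.single t.2 t.1 + toF L := by simp [toF]

@[simp] theorem toF_nil {M : Type} : toF ([] : List (ℤ × M)) = 0 := rfl

end flow

section group

variable {G : Type*} [Group G] {n : ℕ} (g : Fin n → G)

theorem of_surj : Function.Surjective (Abelianization.of : G →* Abelianization G) :=
  QuotientGroup.mk_surjective

theorem of_eq_one {x : G} : Abelianization.of x = 1 ↔ x ∈ commutator G := by
  rw [← Abelianization.ker_of, MonoidHom.mem_ker]

/-- A section of the abelianization. -/
noncomputable def sec (c : Abelianization G) : G := Function.surjInv of_surj c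

@[simp] theorem of_sec (c : Abelianization G) : Abelianization.of (sec c) = c :=
  Function.surjInv_eq of_surj c

/-- The class of a point of the lattice. -/
noncomputable def cls (q : Fin n → ℕ) : Abelianization G := ∏ i, Abelianization.of (g i) ^ q i

theorem cls_add (q q' : Fin n → ℕ) : cls g (q + q') = cls g q * cls g q' := by
  simp [cls, pow_add, Finset.prod_mul_distrib]

theorem cls_incr (q : Fin n → ℕ) (i : Fin n) :
    cls g (incr q i) = cls g q * Abelianization.of (g i) := by
  have : incr q i = q + Pi.single i 1 := by
    funext j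
    by_cases h : j = i
    · subst h; simp [incr]
    · simp [incr, h]
  rw [this, cls_add]
  congr 1
  rw [cls, Finset.prod_eq_single i]
  · simp
  · intro j _ h; simp [h]
  · simp

theorem incr_decr (q : Fin n → ℕ) (i : Fin n) (h : 1 ≤ q i) : incr (decr q i) i = q := by
  funext j
  by_cases hj : j = i
  · subst hj; simp [incr, decr]; omega
  · simp [incr, decr, hj]

variable [Metab G]

/-- The loop of an edge. -/
noncomputable def edge (m : Mon n (Fin n)) : commutator G :=
  ⟨sec (cls g m.1) * g m.2 * (sec (cls g m.1 * Abelianization.of (g m.2)))⁻¹, by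
    rw [← of_eq_one]; simp⟩

/-- The total loop of a flow. -/
noncomputable def Phi : (Mon n (Fin n) →₀ ℤ) →+ Additive (commutator G) :=
  Finsupp.liftAddHom fun m => zmultiplesHom _ (Additive.ofMul (edge g m))

/-- The boundary of a flow. -/
noncomputable def bdy : (Mon n (Fin n) →₀ ℤ) →+ (Abelianization G →₀ ℤ) :=
  Finsupp.liftAddHom fun m => zmultiplesHom _
    (Finsupp.single (cls g m.1) 1 - Finsupp.single (cls g m.1 * Abelianization.of (g m.2)) 1)

theorem Phi_single (m : Mon n (Fin n)) (c : ℤ) :
    Phi g (Finsupp.single m c) = c • Additive.ofMul (edge g m) := by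
  simp [Phi]

omit [Metab G] in
theorem bdy_single (m : Mon n (Fin n)) (c : ℤ) :
    bdy g (Finsupp.single m c) = c • (Finsupp.single (cls g m.1) (1 : ℤ) -
      Finsupp.single (cls g m.1 * Abelianization.of (g m.2)) 1) := by
  simp [bdy]

/-- The correction term. -/
noncomputable def corr (d c : Abelianization G) : commutator G :=
  ⟨sec d * sec c * (sec (d * c))⁻¹, by rw [← of_eq_one]; simp⟩

/-- The total correction. -/
noncomputable def Psi (d : Abelianization G) : (Abelianization G →₀ ℤ) →+ Additive (commutator G) :=
  Finsupp.liftAddHom fun c => zmultiplesHom _ (Additive.ofMul (corr d c))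

theorem Psi_single (d c : Abelianization G) (z : ℤ) :
    Psi d (Finsupp.single c z) = z • Additive.ofMul (corr d c) := by
  simp [Psi]

/-- Conjugation. -/
noncomputable def cj (x : G) : Additive (commutator G) →+ Additive (commutator G) :=
  MonoidHom.toAdditive ((MulAut.conjNormal x : MulAut (commutator G)) :
    commutator G →* commutator G)

theorem cj_apply (x : G) (a : commutator G) :
    ((cj x (Additive.ofMul a)).toMul : G) = x * a * x⁻¹ := by
  change ((MulAut.conjNormal x a : commutator G) : G) = _
  rw [MulAut.conjNormal_apply]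

theorem edge_sh (ν : Fin n → ℕ) (m : Mon n (Fin n)) :
    Additive.ofMul (edge g (sh ν m)) = cj (sec (cls g ν)) (Additive.ofMul (edge g m)) -
      (Additive.ofMul (corr (cls g ν) (cls g m.1)) -
        Additive.ofMul (corr (cls g ν) (cls g m.1 * Abelianization.of (g m.2)))) := by
  rw [eq_sub_iff_add_eq, add_sub_assoc', sub_eq_iff_eq_add]
  apply Additive.toMul.injective
  apply Subtype.ext
  change (edge g (sh ν m) * corr (cls g ν) (cls g m.1) : commutator G).1 = 
    ((cj (sec (cls g ν)) (Additive.ofMul (edge g m))).toMul *
      corr (cls g ν) (cls g m.1 * Abelianization.of (g m.2)) : commutator G).1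
  rw [mul_comm (edge g (sh ν m))]
  simp only [Subgroup.coe_mul]
  rw [cj_apply]
  simp only [edge, corr, sh, cls_add]
  simp only [mul_assoc, inv_mul_cancel_left]

theorem Phi_shf (ν : Fin n → ℕ) (f : Mon n (Fin n) →₀ ℤ) :
    Phi g (shf ν f) = cj (sec (cls g ν)) (Phi g f) - Psi (cls g ν) (bdy g f) := by
  induction f using Finsupp.induction_linear with
  | zero => simp [shf]
  | add f f' h h' => 
    rw [shf_add, map_add, h, h', map_add, map_add, map_add, map_add]
    abel
  | single m c =>
    rw [shf, Finsupp.mapDomain_single, Phi_single, Phi_single, bdy_single, map_zsmul, map_zsmul,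
      ← smul_sub, map_sub, Psi_single, Psi_single, one_smul, one_smul, edge_sh]

omit [Metab G] in
theorem bdy_shf (ν : Fin n → ℕ) (f : Mon n (Fin n) →₀ ℤ) :
    bdy g (shf ν f) = Finsupp.mapDomain (fun c => cls g ν * c) (bdy g f) := by
  induction f using Finsupp.induction_linear with
  | zero => simp [shf]
  | add f f' h h' => 
    rw [shf_add, map_add, h, h', map_add, Finsupp.mapDomain_add]
  | single m c =>
    rw [shf, Finsupp.mapDomain_single, bdy_single, bdy_single, Finsupp.mapDomain_smul]
    congr 1
    have h : ∀ a b : Abelianization G →₀ ℤ, Finsupp.mapDomain (fun c => cls g ν * c) (a - b) =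
        Finsupp.mapDomain (fun c => cls g ν * c) a - Finsupp.mapDomain (fun c => cls g ν * c) b :=
      fun a b => map_sub (Finsupp.mapDomain.addMonoidHom (fun c => cls g ν * c)) a b
    rw [h, Finsupp.mapDomain_single, Finsupp.mapDomain_single]
    simp only [sh, cls_add, mul_assoc]

/-- The relations: the trivial closed flows. -/
noncomputable def relN : AddSubgroup (Mon n (Fin n) →₀ ℤ) := (Phi g).ker ⊓ (bdy g).ker

theorem relN_shf (f : Mon n (Fin n) →₀ ℤ) (hf : f ∈ relN g) (ν : Fin n → ℕ) :
    shf ν f ∈ relN g := by
  rw [relN, AddSubgroup.mem_inf, AddMonoidHom.mem_ker, AddMonoidHom.mem_ker] at hf ⊢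
  obtain ⟨h1, h2⟩ := hf
  refine ⟨?_, ?_⟩
  · rw [Phi_shf, h1, h2, map_zero, map_zero, sub_zero]
  · rw [bdy_shf, h2, Finsupp.mapDomain_zero]

theorem flow_spec (N : ℕ) (w : List (Fin n × Bool)) (hw : w.length ≤ N) :
    (∀ i, N ≤ (flow N w).1 i + w.length) ∧ 
      cls g (flow N w).1 * Abelianization.of (wval g w) = cls g (fun _ => N) ∧
      ((Phi g (toF (flow N w).2)).toMul : G) =
        sec (cls g (flow N w).1) * wval g w * (sec (cls g (fun _ => N)))⁻¹ ∧
      bdy g (toF (flow N w).2) = Finsupp.single (cls g (flow N w).1) 1 -
        Finsupp.single (cls g (fun _ => N)) 1 := by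
  induction w with
  | nil => 
    refine ⟨fun i => by simp [flow], by simp [flow, wval], ?_, by simp [flow]⟩
    simp [flow, wval]
  | cons l w ih =>
    obtain ⟨h1, h2, h3, h4⟩ := ih (by simp at hw; omega)
    obtain ⟨i, b⟩ := l
    have hfl : flow N ((i, b) :: w) = fstep (i, b) (flow N w) := rfl
    have hwv : wval g ((i, b) :: w) = lval g (i, b) * wval g w := by simp [wval]
    rw [hfl, hwv]
    set st := flow N w with hst
    have hlen : w.length + 1 ≤ N := by simpa using hw
    cases b with
    | true =>
      have h5 := incr_decr st.1 i (by have := h1 i; omega)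
      have h6 : cls g (decr st.1 i) * Abelianization.of (g i) = cls g st.1 := by
        rw [← cls_incr, h5]
      simp only [fstep, if_true, lval]
      refine ⟨fun j => ?_, ?_, ?_, ?_⟩
      · have := h1 j
        simp only [decr, List.length_cons]
        split_ifs <;> omega
      · rw [map_mul, ← mul_assoc, h6, h2]
      · rw [toF_cons, map_add, Phi_single, one_smul]
        change ((edge g (decr st.1 i, i) * (Phi g (toF st.2)).toMul : commutator G) : G) = _
        rw [Subgroup.coe_mul, h3, edge]
        simp only [h6]
        simp only [mul_assoc, inv_mul_cancel_left]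
      · rw [toF_cons, map_add, bdy_single, h4, one_smul]
        simp only [h6]
        abel
    | false =>
      simp only [fstep, Bool.false_eq_true, if_false, lval]
      refine ⟨fun j => ?_, ?_, ?_, ?_⟩
      · have := h1 j
        simp only [incr, List.length_cons]
        split_ifs <;> omega
      · rw [cls_incr, map_mul, map_inv, ← h2]
        simp only [mul_assoc, mul_inv_cancel_left]
      · rw [toF_cons, map_add, Phi_single, neg_smul, one_smul]
        change (((edge g (st.1, i))⁻¹ * (Phi g (toF st.2)).toMul : commutator G) : G) = _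
        rw [Subgroup.coe_mul, h3, Subgroup.coe_inv, edge]
        simp only [cls_incr, mul_inv_rev, inv_inv]
        simp only [mul_assoc, inv_mul_cancel_left]
      · rw [toF_cons, map_add, bdy_single, h4, neg_smul, one_smul, cls_incr]
        abel

/-- The word problem in terms of flows. -/
theorem wval_eq_one_iff (N : ℕ) (w : List (Fin n × Bool)) (hw : w.length ≤ N) :
    wval g w = 1 ↔ toF (flow N w).2 ∈ relN g := by
  obtain ⟨-, h2, h3, h4⟩ := flow_spec g N w hw
  rw [relN, AddSubgroup.mem_inf, AddMonoidHom.mem_ker, AddMonoidHom.mem_ker]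
  constructor
  · intro h
    rw [h, map_one, mul_one] at h2
    refine ⟨?_, ?_⟩
    · apply Additive.toMul.injective
      apply Subtype.ext
      rw [h3, h, h2, mul_one, mul_inv_cancel]
      rfl
    · rw [h4, h2, sub_self]
  · rintro ⟨h5, h6⟩
    rw [h4, sub_eq_zero] at h6
    have h7 : cls g (flow N w).1 = cls g (fun _ => N) :=
      Finsupp.single_left_injective one_ne_zero h6
    rw [h5, h7] at h3
    have h8 : (1 : G) = sec (cls g (fun _ => N)) * wval g w * (sec (cls g (fun _ => N)))⁻¹ := h3
    rw [eq_mul_inv_iff_mul_eq, one_mul] at h8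
    exact (mul_eq_left.1 h8.symm)

end group

end Pool.Agent.H648R3.SSP
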