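import Mathlib

/-!
# Strong Groebner bases over the integers, with bounds

`Mon k J` is the set of monomials of the free module with basis `J` over a polynomial ring in `k`
variables.  A subgroup of `Mon k J →₀ ℤ` that is closed under multiplication by monomials has a
finite strong basis: every member is a combination with few terms, small coefficients and small
exponents.
-/

namespace Pool.Agent.H648R3.SSP

open Finset

/-- Module monomials. -/
abbrev Mon (k : ℕ) (J : Type) := (Fin k → ℕ) × J

section grb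

variable {k : ℕ} {J : Type}

/-- Multiplication of a module monomial by a monomial. -/
def sh (ν : Fin k → ℕ) (m : Mon k J) : Mon k J := (ν + m.1, m.2)

theorem sh_inj (ν : Fin k → ℕ) : Function.Injective (sh (J := J) ν) := by
  rintro ⟨a, i⟩ ⟨b, j⟩ h
  simp only [sh, Prod.mk.injEq, add_right_inj] at h
  exact Prod.ext h.1 h.2

/-- Total degree. -/
def deg (m : Mon k J) : ℕ := ∑ i, m.1 i

theorem deg_sh (ν : Fin k → ℕ) (m : Mon k J) : deg (sh ν m) = (∑ i, ν i) + deg m := by
  simp [deg, sh, Finset.sum_add_distrib]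

theorem le_deg (m : Mon k J) (i : Fin k) : m.1 i ≤ deg m :=
  Finset.single_le_sum (f := fun i => m.1 i) (fun _ _ => Nat.zero_le _) (Finset.mem_univ i)

/-- Multiplication of a module element by a monomial. -/
noncomputable def shf (ν : Fin k → ℕ) (f : Mon k J →₀ ℤ) : Mon k J →₀ ℤ :=
  Finsupp.mapDomain (sh ν) f

theorem shf_sh (ν : Fin k → ℕ) (f : Mon k J →₀ ℤ) (m : Mon k J) : shf ν f (sh ν m) = f m :=
  Finsupp.mapDomain_apply (sh_inj ν) f m

theorem shf_ne {ν : Fin k → ℕ} {f : Mon k J →₀ ℤ} {m : Mon k J} (h : shf ν f m ≠ 0) :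
    ∃ m', sh ν m' = m ∧ f m' ≠ 0 := by
  classical
  by_cases hm : m ∈ Set.range (sh ν)
  · obtain ⟨m', rfl⟩ := hm
    exact ⟨m', rfl, by rwa [shf_sh] at h⟩
  · exact absurd (Finsupp.mapDomain_of_notMem_range _ _ hm) h

theorem shf_add (ν : Fin k → ℕ) (f g : Mon k J →₀ ℤ) : shf ν (f + g) = shf ν f + shf ν g :=
  Finsupp.mapDomain_add

/-- The degree-lexicographic key. -/
def key (m : Mon k J) : ℕ ×ₗ (Lex (Fin k → ℕ) ×ₗ J) := toLex (deg m, toLex (toLex m.1, m.2))

theorem key_inj : Function.Injective (key (k := k) (J := J)) := by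
  rintro ⟨a, i⟩ ⟨b, j⟩ h
  have h1 := congrArg (fun x => (ofLex (ofLex x).2).1) h
  have h2 := congrArg (fun x => (ofLex (ofLex x).2).2) h
  exact Prod.ext h1 h2

variable [LinearOrder J]

theorem key_sh_lt (ν : Fin k → ℕ) {m m' : Mon k J} (h : key m < key m') :
    key (sh ν m) < key (sh ν m') := by
  simp only [key, Prod.Lex.toLex_lt_toLex, deg_sh] at h ⊢
  rcases h with h | ⟨h1, h2⟩
  · left; omega
  · right
    refine ⟨by omega, ?_⟩
    rcases h2 with h2 | ⟨h2, h3⟩
    · left
      change toLex ν + toLex m.1 < toLex ν + toLex m'.1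
      exact add_lt_add_right h2 _
    · right
      refine ⟨?_, h3⟩
      change toLex ν + toLex m.1 = toLex ν + toLex m'.1
      rw [h2]

theorem key_sh_lt_iff (ν : Fin k → ℕ) {m m' : Mon k J} :
    key (sh ν m) < key (sh ν m') ↔ key m < key m' := by
  refine ⟨fun h => ?_, key_sh_lt ν⟩
  rcases lt_trichotomy (key m) (key m') with h1 | h1 | h1
  · exact h1
  · rw [key_inj h1] at h; exact absurd h (lt_irrefl _)
  · exact absurd (h.trans (key_sh_lt ν h1)) (lt_irrefl _)

theorem deg_le_of_key {m m' : Mon k J} (h : key m ≤ key m') : deg m ≤ deg m' := by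
  simp only [key, Prod.Lex.toLex_le_toLex] at h
  rcases h with h | ⟨h1, h2⟩ <;> omega

/-- The ideal of leading coefficients at a monomial. -/
def lead (N : AddSubgroup (Mon k J →₀ ℤ)) (m : Mon k J) : Ideal ℤ where
  carrier := {c | ∃ f ∈ N, f m = c ∧ ∀ m', key m < key m' → f m' = 0}
  add_mem' := by
    rintro a b ⟨f, hf, h1, h2⟩ ⟨g, hg, h3, h4⟩
    exact ⟨f + g, N.add_mem hf hg, by simp [h1, h3], fun m' h => by simp [h2 m' h, h4 m' h]⟩
  zero_mem' := ⟨0, N.zero_mem, rfl, fun _ _ => rfl⟩
  smul_mem' := by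
    rintro c a ⟨f, hf, h1, h2⟩
    exact ⟨c • f, N.zsmul_mem hf c, by simp [h1], fun m' h => by simp [h2 m' h]⟩

theorem lead_sh {N : AddSubgroup (Mon k J →₀ ℤ)} (hN : ∀ f ∈ N, ∀ ν, shf ν f ∈ N)
    (ν : Fin k → ℕ) (m : Mon k J) : lead N m ≤ lead N (sh ν m) := by
  rintro c ⟨f, hf, h1, h2⟩
  refine ⟨shf ν f, hN f hf ν, by rw [shf_sh, h1], fun m' h => ?_⟩
  by_contra hne
  obtain ⟨m'', rfl, h3⟩ := shf_ne hne
  exact h3 (h2 _ ((key_sh_lt_iff ν).1 h))

theorem exists_finite [Finite J] {N : AddSubgroup (Mon k J →₀ ℤ)}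
    (hN : ∀ f ∈ N, ∀ ν, shf ν f ∈ N) :
    ∃ S : Finset (Mon k J), ∀ m, ∃ m0 ∈ S, ∃ ν, sh ν m0 = m ∧ lead N m0 = lead N m := by
  by_contra hcon
  push Not at hcon
  obtain ⟨f, -, hf⟩ := exists_seq_of_forall_finset_exists (α := Mon k J) (fun _ => True)
    (fun x y => ∀ ν, sh ν x = y → lead N x ≠ lead N y) (fun s _ => by
      obtain ⟨m, hm⟩ := hcon s
      exact ⟨m, trivial, fun x hx ν => hm x hx ν⟩)
  have hw : WellQuasiOrdered (fun a b : Mon k J => a.1 ≤ b.1 ∧ a.2 = b.2) := by
    have h1 : WellQuasiOrdered (fun a b : Fin k → ℕ => a ≤ b) := wellQuasiOrdered_le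
    have h2 : WellQuasiOrdered (fun a b : J => a = b) := Finite.wellQuasiOrdered _
    exact WellQuasiOrdered.prod h1 h2
  have : IsPreorder (Mon k J) (fun a b : Mon k J => a.1 ≤ b.1 ∧ a.2 = b.2) :=
    { refl := fun a => ⟨le_rfl, rfl⟩
      trans := fun a b c h h' => ⟨h.1.trans h'.1, h.2.trans h'.2⟩ }
  obtain ⟨g, hg⟩ := hw.exists_monotone_subseq f
  have hsh : ∀ a b : ℕ, a ≤ b → ∃ ν, sh ν (f (g a)) = f (g b) := by
    intro a b hab
    obtain ⟨h1, h2⟩ := hg a b hab
    refine ⟨(f (g b)).1 - (f (g a)).1, Prod.ext ?_ h2⟩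
    change (f (g b)).1 - (f (g a)).1 + (f (g a)).1 = (f (g b)).1
    exact tsub_add_cancel_of_le h1
  let I : ℕ →o Ideal ℤ := ⟨fun a => lead N (f (g a)), fun a b hab => by
    obtain ⟨ν, hν⟩ := hsh a b hab
    change lead N (f (g a)) ≤ lead N (f (g b))
    rw [← hν]
    exact lead_sh hN ν _⟩
  obtain ⟨n, hn⟩ := monotone_stabilizes_iff_noetherian.2 (inferInstance : IsNoetherian ℤ ℤ) I
  obtain ⟨ν, hν⟩ := hsh n (n + 1) (by omega)
  exact hf (g n) (g (n + 1)) (g.strictMono (by omega)) ν hν (hn (n + 1) (by omega))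

/-- A strong basis. -/
theorem exists_basis [Fintype J] {N : AddSubgroup (Mon k J →₀ ℤ)}
    (hN : ∀ f ∈ N, ∀ ν, shf ν f ∈ N) :
    ∃ (s : ℕ) (g : Fin s → (Mon k J →₀ ℤ)) (C : ℕ), (∀ i, g i ∈ N) ∧
      ∀ f ∈ N, ∀ d B : ℕ, (∀ m, f m ≠ 0 → deg m ≤ d) → (∀ m, (f m).natAbs ≤ B) →
        ∃ L : List (ℤ × (Fin k → ℕ) × Fin s), L.length ≤ (d + 1) ^ k * Fintype.card J ∧
          (∀ t ∈ L, t.1.natAbs ≤ B * (1 + C) ^ ((d + 1) ^ k * Fintype.card J) ∧
            ∀ i, t.2.1 i ≤ d) ∧
          f = (L.map fun t => t.1 • shf t.2.1 (g t.2.2)).sum := by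
  classical
  obtain ⟨S, hS⟩ := exists_finite hN
  -- generators
  have hgen : ∀ m : Mon k J, ∃ f ∈ N, (∀ m', key m < key m' → f m' = 0) ∧
      ∀ c ∈ lead N m, ∃ q : ℤ, c = q * f m := by
    intro m
    obtain ⟨a, ha⟩ := (IsPrincipalIdealRing.principal (lead N m)).principal
    have ha' : a ∈ lead N m := by rw [ha]; exact Submodule.mem_span_singleton_self a
    obtain ⟨f, hf, h1, h2⟩ := ha'
    refine ⟨f, hf, h2, fun c hc => ?_⟩
    rw [ha] at hc
    obtain ⟨q, rfl⟩ := Submodule.mem_span_singleton.1 hc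
    exact ⟨q, by rw [h1, smul_eq_mul]⟩
  choose G hG1 hG2 hG3 using hgen
  let e := S.equivFin
  let g : Fin S.card → (Mon k J →₀ ℤ) := fun i => G (e.symm i).1
  let C : ℕ := ∑ i, ∑ m ∈ (g i).support, (g i m).natAbs
  have hC : ∀ i m, (g i m).natAbs ≤ C := by
    intro i m
    by_cases hm : g i m = 0
    · rw [hm]; simp
    · refine le_trans ?_ (Finset.single_le_sum
        (f := fun i => ∑ m ∈ (g i).support, (g i m).natAbs) (fun _ _ => Nat.zero_le _)
        (Finset.mem_univ i))
      exact Finset.single_le_sum (f := fun m => (g i m).natAbs) (fun _ _ => Nat.zero_le _)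
        (Finsupp.mem_support_iff.2 hm)
  refine ⟨S.card, g, C, fun i => hG1 _, ?_⟩
  -- main induction
  have main : ∀ (D : ℕ) (f : Mon k J →₀ ℤ), f ∈ N → ∀ d B : ℕ, (∀ m, f m ≠ 0 → deg m ≤ d) →
      (∀ m, (f m).natAbs ≤ B) →
      (((Fintype.piFinset fun _ : Fin k => Finset.range (d + 1)) ×ˢ (Finset.univ : Finset J)).filter
        (fun m => ∃ m' ∈ f.support, key m ≤ key m')).card ≤ D →
        ∃ L : List (ℤ × (Fin k → ℕ) × Fin S.card), L.length ≤ D ∧
          (∀ t ∈ L, t.1.natAbs ≤ B * (1 + C) ^ D ∧ ∀ i, t.2.1 i ≤ d) ∧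
          f = (L.map fun t => t.1 • shf t.2.1 (g t.2.2)).sum := by
    intro D
    induction D with
    | zero =>
      intro f hf d B hd hB hcard
      refine ⟨[], le_rfl, by simp, ?_⟩
      by_contra hne
      have hf0 : f ≠ 0 := fun h => hne (by rw [h]; simp)
      obtain ⟨m, hm⟩ := Finsupp.support_nonempty_iff.2 hf0
      have h0 : m ∈ ((Fintype.piFinset fun _ : Fin k => Finset.range (d + 1)) ×ˢ
          (Finset.univ : Finset J)).filter (fun m => ∃ m' ∈ f.support, key m ≤ key m') := by
        simp only [Finset.mem_filter, Finset.mem_product, Fintype.mem_piFinset,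
          Finset.mem_range, Finset.mem_univ, and_true]
        refine ⟨fun i => ?_, m, hm, le_rfl⟩
        have h1 := hd m (Finsupp.mem_support_iff.1 hm)
        have h2 := le_deg m i
        omega
      have := Finset.card_pos.2 ⟨m, h0⟩
      omega
    | succ D ih =>
      intro f hf d B hd hB hcard
      by_cases hf0 : f = 0
      · exact ⟨[], Nat.zero_le _, by simp, by rw [hf0]; simp⟩
      obtain ⟨m, hm, hmax⟩ := Finset.exists_max_image f.support key
        (Finsupp.support_nonempty_iff.2 hf0)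
      have hmne := Finsupp.mem_support_iff.1 hm
      have hle : ∀ m', key m < key m' → f m' = 0 := by
        intro m' h
        by_contra hne
        exact absurd (hmax m' (Finsupp.mem_support_iff.2 hne)) (not_le.2 h)
      have hlead : f m ∈ lead N m := ⟨f, hf, rfl, hle⟩
      obtain ⟨m0, hm0, ν, rfl, hI⟩ := hS m
      rw [← hI] at hlead
      obtain ⟨q, hq⟩ := hG3 m0 _ hlead
      let i : Fin S.card := e ⟨m0, hm0⟩
      have hgi : g i = G m0 := by simp [g, i]
      have hq0 : q.natAbs ≤ B := by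
        have h1 : G m0 m0 ≠ 0 := by
          intro h; rw [h, mul_zero] at hq; exact hmne hq
        have h2 : 1 ≤ (G m0 m0).natAbs := Nat.one_le_iff_ne_zero.2 (by simpa using h1)
        have h3 := hB (sh ν m0)
        rw [hq, Int.natAbs_mul] at h3
        nlinarith
      set f' : Mon k J →₀ ℤ := f - q • shf ν (g i) with hf'
      have hf'N : f' ∈ N := N.sub_mem hf (N.zsmul_mem (hN _ (by rw [hgi]; exact hG1 m0) ν) q)
      have hf'0 : f' (sh ν m0) = 0 := by
        simp only [hf', Finsupp.coe_sub, Finsupp.coe_smul, Pi.sub_apply, Pi.smul_apply,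
          shf_sh, hgi, smul_eq_mul, hq, sub_self]
      have hf'gt : ∀ m', key (sh ν m0) < key m' → f' m' = 0 := by
        intro m' h
        have h1 : shf ν (g i) m' = 0 := by
          by_contra hne
          obtain ⟨m'', rfl, h3⟩ := shf_ne hne
          rw [hgi] at h3
          exact h3 (hG2 m0 _ ((key_sh_lt_iff ν).1 h))
        simp [hf', hle m' h, h1]
      have hf'lt : ∀ m', f' m' ≠ 0 → key m' < key (sh ν m0) := by
        intro m' h
        rcases lt_trichotomy (key m') (key (sh ν m0)) with h1 | h1 | h1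
        · exact h1
        · rw [key_inj h1] at h; exact absurd hf'0 h
        · exact absurd (hf'gt m' h1) h
      have hdm := hd _ hmne
      obtain ⟨L, hL1, hL2, hL3⟩ := ih f' hf'N d (B * (1 + C))
        (fun m' h => (deg_le_of_key (hf'lt m' h).le).trans hdm) (by
          intro m'
          have h1 := hB m'
          have h2 : (shf ν (g i) m').natAbs ≤ C := by
            by_cases h : shf ν (g i) m' = 0
            · rw [h]; simp
            · obtain ⟨m'', rfl, h3⟩ := shf_ne h
              rw [shf_sh]; exact hC i m''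
          have h3 : (f' m').natAbs ≤ (f m').natAbs + (q * shf ν (g i) m').natAbs := by
            simp only [hf', Finsupp.coe_sub, Finsupp.coe_smul, Pi.sub_apply, Pi.smul_apply,
              smul_eq_mul]
            omega
          rw [Int.natAbs_mul] at h3
          nlinarith [Nat.mul_le_mul hq0 h2]) (by
          have hsub : (((Fintype.piFinset fun _ : Fin k => Finset.range (d + 1)) ×ˢ
              (Finset.univ : Finset J)).filter (fun m => ∃ m' ∈ f'.support, key m ≤ key m')) ⊆
              (((Fintype.piFinset fun _ : Fin k => Finset.range (d + 1)) ×ˢ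
              (Finset.univ : Finset J)).filter
              (fun m => ∃ m' ∈ f.support, key m ≤ key m')).erase (sh ν m0) := by
            intro x hx
            simp only [Finset.mem_filter, Finset.mem_erase] at hx ⊢
            obtain ⟨hx1, m', hm', hx2⟩ := hx
            have h4 := hf'lt m' (Finsupp.mem_support_iff.1 hm')
            refine ⟨?_, hx1, sh ν m0, hm, (hx2.trans h4.le)⟩
            rintro rfl
            exact absurd (hx2.trans_lt h4) (lt_irrefl _)
          have h5 := Finset.card_le_card hsub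
          rw [Finset.card_erase_of_mem] at h5
          · omega
          · simp only [Finset.mem_filter, Finset.mem_product, Fintype.mem_piFinset,
              Finset.mem_range, Finset.mem_univ, and_true]
            refine ⟨fun i => ?_, sh ν m0, hm, le_rfl⟩
            have h2 := le_deg (sh ν m0) i
            omega)
      refine ⟨(q, ν, i) :: L, by simp; omega, ?_, ?_⟩
      · intro t ht
        rcases List.mem_cons.1 ht with rfl | ht
        · refine ⟨?_, fun i => ?_⟩
          · have : 1 ≤ (1 + C) ^ (D + 1) := Nat.one_le_pow _ _ (by omega)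
            change q.natAbs ≤ _
            nlinarith
          · change ν i ≤ d
            have h2 := le_deg (sh ν m0) i
            have h3 : ν i ≤ (sh ν m0).1 i := by simp [sh]
            omega
        · obtain ⟨h1, h2⟩ := hL2 t ht
          refine ⟨?_, h2⟩
          rw [mul_assoc, ← pow_succ'] at h1
          exact h1
      · rw [List.map_cons, List.sum_cons, ← hL3]
        change f = q • shf ν (g i) + f'
        rw [hf']; abel
  intro f hf d B hd hB
  refine main _ f hf d B hd hB ?_
  refine (Finset.card_filter_le _ _).trans ?_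
  rw [Finset.card_product, Fintype.card_piFinset]
  simp

end grb

end Pool.Agent.H648R3.SSP
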