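import Pool.Agent.H648R3.SSP.Defs
import Pool.Agent.H687R2.IntPoly
import Pool.Agent.NPC.CookLevin3

/-!
# The subset sum problem of a finitely generated metabelian group is in NP
-/

namespace Pool.Agent.NPC.SSP648

open Pool.Agent.NPC.CL Pool.Agent.H648R3.SSP

open TDec (dec dec_toT toT_dec poly_dec)

section inst

/-- Members of `Fin n` are decodable. -/
instance finTDec (n : ℕ) : TDec (Fin n) where
  dec t := (dec t : Option ℕ).bind fun m => if h : m < n then some ⟨m, h⟩ else none
  dec_toT i := by
    change ((dec (toT (i : ℕ)) : Option ℕ).bind _) = _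
    rw [dec_toT]; simp
  toT_dec t i h := by
    rw [Option.bind_eq_some_iff] at h
    obtain ⟨m, hm, h⟩ := h
    split_ifs at h with h1
    cases h
    exact toT_dec t m hm
  poly_dec := by
    apply Poly.of_toT
    have h1 : Poly (fun t : T => (dec t : Option ℕ).bind
        fun m => if m < n then some m else none) :=
      Poly.optBind (f := fun _ (m : ℕ) => if m < n then some m else none) poly_dec
        (Poly.ite (Poly.decide_lt (Poly.snd Poly.id) (Poly.const n)) (Poly.some (Poly.snd Poly.id))
          (Poly.const none))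
    refine h1.toT'.congr fun t => ?_
    cases (dec t : Option ℕ) with
    | none => rfl
    | some m =>
      simp only [Option.bind_some]
      split_ifs
      · rfl
      · rfl

/-- Vectors are coded as lists. -/
instance vecEnc (n : ℕ) : TEnc (Fin n → ℕ) :=
  ⟨fun f => toT (List.ofFn f), fun _ _ h => List.ofFn_injective (TEnc.inj h)⟩

theorem sz_vec {n : ℕ} (f : Fin n → ℕ) : sz f = sz (List.ofFn f) := rfl

/-- Vectors are decodable. -/
instance vecDec (n : ℕ) : TDec (Fin n → ℕ) where
  dec t := (dec t : Option (List ℕ)).bind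
    fun l => if l.length = n then some (fun i => l.getD i 0) else none
  dec_toT f := by
    change ((dec (toT (List.ofFn f)) : Option (List ℕ)).bind _) = _
    rw [dec_toT]; simp [List.getD_eq_getElem?_getD]
  toT_dec t f h := by
    rw [Option.bind_eq_some_iff] at h
    obtain ⟨l, hl, h⟩ := h
    split_ifs at h with h1
    cases h
    rw [← toT_dec t l hl]
    change toT (List.ofFn (fun i : Fin n => l.getD (i : ℕ) 0)) = _
    congr 1
    subst h1
    simp [List.getD_eq_getElem?_getD]
  poly_dec := by
    apply Poly.of_toT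
    have h1 : Poly (fun t : T => (dec t : Option (List ℕ)).bind
        fun l => if l.length = n then some l else none) :=
      Poly.optBind (f := fun _ (l : List ℕ) => if l.length = n then some l else none) poly_dec
        (Poly.ite (Poly.decide_eq (Poly.length (Poly.snd Poly.id)) (Poly.const n))
          (Poly.some (Poly.snd Poly.id)) (Poly.const none))
    refine h1.toT'.congr fun t => ?_
    cases (dec t : Option (List ℕ)) with
    | none => rfl
    | some l =>
      simp only [Option.bind_some]
      split_ifs with h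
      · change T.node (toT l) T.nil = T.node (toT (List.ofFn fun i : Fin n => l.getD i 0)) T.nil
        congr 2
        subst h
        simp [List.getD_eq_getElem?_getD]
      · rfl

variable {α : Type} [TEnc α]

theorem poly_ofFn {β : Type} [TEnc β] : ∀ {n : ℕ} {f : α → Fin n → β},
    (∀ i, Poly (fun a => f a i)) → Poly (fun a => List.ofFn (f a))
  | 0, f, _ => (Poly.const ([] : List β)).congr fun a => by simp
  | n + 1, f, h => by
    refine (Poly.cons (h 0) (poly_ofFn (f := fun a i => f a (Fin.succ i))
      fun i => h i.succ)).congr fun a => ?_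
    rw [List.ofFn_succ]

theorem poly_pi {n : ℕ} {f : α → Fin n → ℕ} (h : ∀ i, Poly (fun a => f a i)) : Poly f :=
  Poly.of_toT (poly_ofFn h).toT'

theorem poly_papp {n : ℕ} {f : α → Fin n → ℕ} (h : Poly f) (i : Fin n) :
    Poly (fun a => f a i) := by
  have h1 : Poly (fun a => List.ofFn (f a)) := Poly.of_toT h.toT'
  refine (Poly.getD (d := fun _ => 0) h1 (Poly.const (i : ℕ)) (Poly.const 0)).congr fun a => ?_
  simp [List.getD_eq_getElem?_getD]

end inst

section check

variable {M : Type} [TEnc M] [DecidableEq M]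

/-- Does a list of terms represent zero? -/
def chk (L : List (ℤ × M)) : Bool :=
  L.all fun t => decide (((L.filter fun u => decide (u.2 = t.2)).map fun u => u.1).sum = 0)

omit [TEnc M] in
theorem toF_apply (L : List (ℤ × M)) (m : M) :
    toF L m = ((L.filter fun u => decide (u.2 = m)).map fun u => u.1).sum := by
  induction L with
  | nil => simp
  | cons t L ih =>
    rw [toF_cons, Finsupp.add_apply, ih]
    by_cases h : t.2 = m
    · simp [h]
    · simp [h]

omit [TEnc M] in
theorem chk_iff (L : List (ℤ × M)) : chk L = true ↔ toF L = 0 := by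
  rw [chk, List.all_eq_true]
  constructor
  · intro h
    ext m
    rw [toF_apply, Finsupp.coe_zero, Pi.zero_apply]
    by_cases hm : ∃ t ∈ L, t.2 = m
    · obtain ⟨t, ht, rfl⟩ := hm
      simpa using h t ht
    · push Not at hm
      rw [List.filter_eq_nil_iff.2 (by simpa using hm)]
      simp
  · intro h t _
    rw [decide_eq_true_eq, ← toF_apply, h]
    rfl

theorem poly_chk {α : Type} [TEnc α] {L : α → List (ℤ × M)} (hL : Poly L) :
    Poly (fun a => chk (L a)) := by
  refine Poly.all (p := fun a (t : ℤ × M) =>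
    decide ((((L a).filter fun u => decide (u.2 = t.2)).map fun u => u.1).sum = 0)) hL ?_
  refine Poly.decide_eq (Poly.isum ?_) (Poly.const 0)
  refine Poly.map (F := fun _ (u : ℤ × M) => u.1) ?_ (Poly.fst (Poly.snd Poly.id))
  exact Poly.filter (p := fun (q : α × ℤ × M) (u : ℤ × M) => decide (u.2 = q.2.2))
    (hL.comp (Poly.fst Poly.id))
    (Poly.decide_eq (Poly.snd (Poly.snd Poly.id)) (Poly.snd (Poly.snd (Poly.fst Poly.id))))

end check

section terms

variable {n s : ℕ}

/-- The terms of a certificate. -/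
def terms (tab : Fin s → List (ℤ × Mon n (Fin n))) (L : List (ℤ × (Fin n → ℕ) × Fin s)) :
    List (ℤ × Mon n (Fin n)) :=
  L.flatMap fun t => (tab t.2.2).map fun u => (t.1 * u.1, (t.2.1 + u.2.1, u.2.2))

theorem toF_append {M : Type} (L L' : List (ℤ × M)) : toF (L ++ L') = toF L + toF L' := by
  simp [toF]

theorem toF_smul_sh (c : ℤ) (ν : Fin n → ℕ) (L : List (ℤ × Mon n (Fin n))) :
    toF (L.map fun u => (c * u.1, (ν + u.2.1, u.2.2))) = c • shf ν (toF L) := by
  induction L with
  | nil => simp [shf]
  | cons u L ih =>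
    rw [List.map_cons, toF_cons, ih, toF_cons, shf_add, smul_add, shf, shf,
      Finsupp.mapDomain_single, Finsupp.smul_single, smul_eq_mul]
    rfl

theorem toF_terms (tab : Fin s → List (ℤ × Mon n (Fin n))) (L : List (ℤ × (Fin n → ℕ) × Fin s)) :
    toF (terms tab L) = (L.map fun t => t.1 • shf t.2.1 (toF (tab t.2.2))).sum := by
  induction L with
  | nil => rfl
  | cons t L ih =>
    have h : terms tab (t :: L) = ((tab t.2.2).map fun u => (t.1 * u.1, (t.2.1 + u.2.1, u.2.2))) ++
        terms tab L := by simp [terms]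
    rw [h, toF_append, ih, toF_smul_sh, List.map_cons, List.sum_cons]

theorem toF_neg {M : Type} (L : List (ℤ × M)) : toF (L.map fun t => (-t.1, t.2)) = - toF L := by
  induction L with
  | nil => simp
  | cons t L ih =>
    rw [List.map_cons, toF_cons, toF_cons, ih, neg_add]
    simp

theorem exists_tab {M : Type} (f : M →₀ ℤ) : ∃ L : List (ℤ × M), toF L = f := by
  classical
  refine ⟨f.support.toList.map fun m => (f m, m), ?_⟩
  conv_rhs => rw [← Finsupp.sum_single f]
  rw [Finsupp.sum, ← Finset.sum_map_toList, toF, List.map_map]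
  rfl

theorem poly_terms (tab : Fin s → List (ℤ × Mon n (Fin n))) : Poly (terms tab) := by
  refine Poly.flatMap (F := fun _ (t : ℤ × (Fin n → ℕ) × Fin s) =>
    (tab t.2.2).map fun u => (t.1 * u.1, (t.2.1 + u.2.1, u.2.2))) Poly.id ?_
  refine Poly.map (F := fun (p : List (ℤ × (Fin n → ℕ) × Fin s) × ℤ × (Fin n → ℕ) × Fin s)
    (u : ℤ × Mon n (Fin n)) => (p.2.1 * u.1, (p.2.2.1 + u.2.1, u.2.2)))
    ((polyOfFintype tab).comp (Poly.snd (Poly.snd (Poly.snd Poly.id)))) ?_
  refine Poly.pair (Poly.imul (Poly.fst (Poly.snd (Poly.fst Poly.id)))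
    (Poly.fst (Poly.snd Poly.id))) (Poly.pair ?_ (Poly.snd (Poly.snd (Poly.snd Poly.id))))
  refine poly_pi fun i => ?_
  exact Poly.add (poly_papp (Poly.fst (Poly.snd (Poly.snd (Poly.fst Poly.id)))) i)
    (poly_papp (Poly.fst (Poly.snd (Poly.snd Poly.id))) i)

end terms

section bounds

variable {n : ℕ}

theorem sz_vec_le (f : Fin n → ℕ) (B : ℕ) (h : ∀ i, f i ≤ B) : sz f ≤ n * (4 * B + 2) + 1 := by
  rw [sz_vec]
  refine (sz_le_length_mul _ (4 * B + 1) ?_).trans (by rw [List.length_ofFn])
  intro a ha
  rw [List.mem_ofFn] at ha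
  obtain ⟨i, rfl⟩ := ha
  have h1 := sz_nat_le (f i)
  have h2 := Poly.size_le_self (f i)
  have h3 := h i
  omega

theorem sz_fin_le (i : Fin n) : sz i ≤ 4 * n + 1 := by
  change sz (i : ℕ) ≤ _
  have h1 := sz_nat_le (i : ℕ)
  have h2 := Poly.size_le_self (i : ℕ)
  have h3 := i.2
  omega

theorem flow_bound (N : ℕ) (w : List (Fin n × Bool)) (hw : w.length ≤ N) :
    (∀ i, (flow N w).1 i ≤ N + w.length) ∧ (flow N w).2.length = w.length ∧
      ∀ t ∈ (flow N w).2, t.1.natAbs = 1 ∧ ∀ i, t.2.1 i ≤ 2 * N := by
  induction w with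
  | nil => exact ⟨fun i => by simp [flow], rfl, by simp [flow]⟩
  | cons l w ih =>
    have hlen : w.length + 1 ≤ N := by simpa using hw
    obtain ⟨h1, h2, h3⟩ := ih (by omega)
    have hfl : flow N (l :: w) = fstep l (flow N w) := rfl
    rw [hfl]
    obtain ⟨i, b⟩ := l
    cases b with
    | true =>
      simp only [fstep, if_true, List.length_cons]
      refine ⟨fun j => ?_, by rw [h2], ?_⟩
      · have := h1 j
        simp only [decr]; split_ifs <;> omega
      · intro t ht
        rcases List.mem_cons.1 ht with rfl | ht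
        · refine ⟨rfl, fun j => ?_⟩
          have := h1 j
          simp only [decr]; split_ifs <;> omega
        · exact h3 t ht
    | false =>
      simp only [fstep, Bool.false_eq_true, if_false, List.length_cons]
      refine ⟨fun j => ?_, by rw [h2], ?_⟩
      · have := h1 j
        simp only [incr]; split_ifs <;> omega
      · intro t ht
        rcases List.mem_cons.1 ht with rfl | ht
        · refine ⟨rfl, fun j => ?_⟩
          have := h1 j
          change (flow N w).1 j ≤ _
          omega
        · exact h3 t ht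

theorem sz_flow_le (N : ℕ) (w : List (Fin n × Bool)) (hw : w.length ≤ N) :
    sz (flow N w) ≤ (n * (8 * N + 2) + 1) +
      (N * ((9 + (n * (8 * N + 2) + 1) + (4 * n + 1) + 2) + 1) + 1) + 1 := by
  obtain ⟨h1, h2, h3⟩ := flow_bound N w hw
  have e1 : sz (flow N w) = sz (flow N w).1 + sz (flow N w).2 + 1 := sz_pair _ _
  have e2 := sz_vec_le (flow N w).1 (2 * N) (fun i => (h1 i).trans (by omega))
  have e3 : sz (flow N w).2 ≤ (flow N w).2.length *
      ((9 + (n * (8 * N + 2) + 1) + (4 * n + 1) + 2) + 1) + 1 := by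
    refine sz_le_length_mul _ _ fun t ht => ?_
    obtain ⟨h4, h5⟩ := h3 t ht
    have e4 : sz t = sz t.1 + (sz t.2.1 + sz t.2.2 + 1) + 1 := by
      obtain ⟨a, b, c⟩ := t
      rw [sz_pair, sz_pair]
    have e5 := sz_int_le t.1
    have e6 := sz_vec_le t.2.1 (2 * N) h5
    have e7 := sz_fin_le t.2.2
    rw [h4] at e5
    have e8 : (1 : ℕ).size = 1 := by decide
    rw [e8] at e5
    have e9 : 4 * (2 * N) = 8 * N := by ring
    rw [e9] at e6
    omega
  rw [h2] at e3
  have e4 : w.length * ((9 + (n * (8 * N + 2) + 1) + (4 * n + 1) + 2) + 1) ≤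
      N * ((9 + (n * (8 * N + 2) + 1) + (4 * n + 1) + 2) + 1) := Nat.mul_le_mul_right _ hw
  have e9 : 4 * (2 * N) = 8 * N := by ring
  rw [e9] at e2
  omega

theorem poly_flow {α : Type} [TEnc α] {W : α → List (Fin n × Bool)} {N : α → ℕ} (hW : Poly W)
    (hN : Poly N) (h1 : ∀ a, (W a).length ≤ N a) (h2 : ∀ a, N a ≤ sz a) :
    Poly (fun a => flow (N a) (W a)) := by
  have hstep : Poly (fun p : α × (Fin n × Bool) × ((Fin n → ℕ) × List (ℤ × Mon n (Fin n))) =>
      fstep p.2.1 p.2.2) := by
    have hq : Poly (fun p : α × (Fin n × Bool) × ((Fin n → ℕ) × List (ℤ × Mon n (Fin n))) =>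
        p.2.2.1) := Poly.fst (Poly.snd (Poly.snd Poly.id))
    have hi : Poly (fun p : α × (Fin n × Bool) × ((Fin n → ℕ) × List (ℤ × Mon n (Fin n))) =>
        p.2.1.1) := Poly.fst (Poly.fst (Poly.snd Poly.id))
    have hL : Poly (fun p : α × (Fin n × Bool) × ((Fin n → ℕ) × List (ℤ × Mon n (Fin n))) =>
        p.2.2.2) := Poly.snd (Poly.snd (Poly.snd Poly.id))
    have hd : Poly (fun p : α × (Fin n × Bool) × ((Fin n → ℕ) × List (ℤ × Mon n (Fin n))) =>
        decr p.2.2.1 p.2.1.1) := poly_pi fun j =>
      Poly.ite (p := fun p : α × (Fin n × Bool) × ((Fin n → ℕ) × List (ℤ × Mon n (Fin n))) =>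
        j = p.2.1.1) (Poly.decide_eq (Poly.const j) hi)
        (Poly.sub (poly_papp hq j) (Poly.const 1)) (poly_papp hq j)
    have hc : Poly (fun p : α × (Fin n × Bool) × ((Fin n → ℕ) × List (ℤ × Mon n (Fin n))) =>
        incr p.2.2.1 p.2.1.1) := poly_pi fun j =>
      Poly.ite (p := fun p : α × (Fin n × Bool) × ((Fin n → ℕ) × List (ℤ × Mon n (Fin n))) =>
        j = p.2.1.1) (Poly.decide_eq (Poly.const j) hi)
        (Poly.add (poly_papp hq j) (Poly.const 1)) (poly_papp hq j)
    refine (Poly.cond (Poly.snd (Poly.fst (Poly.snd Poly.id)))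
      (Poly.pair hd (Poly.cons (Poly.pair (Poly.const (1 : ℤ)) (Poly.pair hd hi)) hL))
      (Poly.pair hc (Poly.cons (Poly.pair (Poly.const (-1 : ℤ)) (Poly.pair hq hi)) hL))).congr ?_
    rintro ⟨a, ⟨i, b⟩, q, L⟩
    cases b <;> rfl
  obtain ⟨q, hq⟩ : ∃ q : Polynomial ℕ, ∀ x, q.eval x = (n * (8 * x + 2) + 1) +
      (x * ((9 + (n * (8 * x + 2) + 1) + (4 * n + 1) + 2) + 1) + 1) + 1 :=
    ⟨(Polynomial.C n * (Polynomial.C 8 * Polynomial.X + Polynomial.C 2) + Polynomial.C 1) +
      (Polynomial.X * ((Polynomial.C 9 + (Polynomial.C n * (Polynomial.C 8 * Polynomial.X +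
        Polynomial.C 2) + Polynomial.C 1) + Polynomial.C (4 * n + 1) + Polynomial.C 2) +
        Polynomial.C 1) + Polynomial.C 1) + Polynomial.C 1, fun x => by
        simp only [Polynomial.eval_add, Polynomial.eval_mul, Polynomial.eval_C,
          Polynomial.eval_X]⟩
  refine Poly.foldr (F := fun _ l st => fstep l st) hW
    (Poly.pair (poly_pi (f := fun a (_ : Fin n) => N a) fun _ => hN) (Poly.const []))
    hstep q ?_
  intro a k hk
  refine (sz_flow_le (N a) ((W a).drop k) (by rw [List.length_drop]; have := h1 a; omega)).trans ?_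
  rw [← hq]
  exact eval_mono q (h2 a)

theorem natAbs_toF_le {M : Type} [DecidableEq M] (L : List (ℤ × M))
    (h : ∀ t ∈ L, t.1.natAbs = 1) (m : M) : (toF L m).natAbs ≤ L.length := by
  induction L with
  | nil => simp
  | cons t L ih =>
    have h1 := ih fun t ht => h t (List.mem_cons_of_mem _ ht)
    have h2 := h t (by simp)
    rw [toF_cons, Finsupp.add_apply, Finsupp.single_apply, List.length_cons]
    split_ifs <;> omega

theorem exists_of_toF_ne {M : Type} [DecidableEq M] (L : List (ℤ × M)) (m : M)
    (h : toF L m ≠ 0) : ∃ t ∈ L, t.2 = m := by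
  by_contra hne
  push Not at hne
  apply h
  rw [toF_apply, List.filter_eq_nil_iff.2 (by simpa using hne)]
  simp

theorem length_flatten_le {α : Type} [TEnc α] (L : List (List α)) :
    L.flatten.length ≤ sz L := by
  induction L with
  | nil => simp
  | cons l L ih =>
    have := length_lt_sz l
    simp only [List.flatten_cons, List.length_append, sz_list_cons]
    omega

theorem length_selW_le (b : List Bool) (ws : List (List (Fin n × Bool))) :
    (selW b ws).length ≤ ws.flatten.length := by
  induction ws generalizing b with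
  | nil => simp [selW]
  | cons w ws ih =>
    cases b with
    | nil => simp [selW]
    | cons c b =>
      have h1 : selW (c :: b) (w :: ws) = (if c then w else []) ++ selW b ws := by simp [selW]
      have h2 := ih b
      rw [h1, List.flatten_cons, List.length_append, List.length_append]
      cases c
      · simp only [Bool.false_eq_true, if_false, List.length_nil]; omega
      · simp only [if_true]; omega

theorem size_mul_le (a b : ℕ) : (a * b).size ≤ a.size + b.size := by
  rw [Nat.size_le, pow_add]
  exact Nat.mul_lt_mul'' (Nat.lt_size_self a) (Nat.lt_size_self b)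

end bounds

section main

variable {n s : ℕ}

/-- The length bound of an instance. -/
def totLen (I : List (List (Fin n × Bool)) × List (Fin n × Bool)) : ℕ :=
  I.1.flatten.length + I.2.length

/-- The verifier. -/
def verify (tab : Fin s → List (ℤ × Mon n (Fin n)))
    (p : (List (List (Fin n × Bool)) × List (Fin n × Bool)) ×
      (List Bool × List (ℤ × (Fin n → ℕ) × Fin s))) : Bool :=
  decide (p.2.1.length = p.1.1.length) &&
    chk (terms tab p.2.2 ++
      (flow (totLen p.1) (selW p.2.1 p.1.1 ++ winv p.1.2)).2.map fun t => (-t.1, t.2))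

theorem length_word_le (b : List Bool) (I : List (List (Fin n × Bool)) × List (Fin n × Bool)) :
    (selW b I.1 ++ winv I.2).length ≤ totLen I := by
  have h1 := length_selW_le b I.1
  simp only [List.length_append, totLen, winv, List.length_reverse, List.length_map]
  omega

theorem totLen_le (I : List (List (Fin n × Bool)) × List (Fin n × Bool)) : totLen I ≤ sz I := by
  have h1 := length_flatten_le I.1
  have h2 := length_lt_sz I.2
  have h3 : sz I = sz I.1 + sz I.2 + 1 := sz_pair _ _
  simp only [totLen]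
  omega

theorem poly_verify (tab : Fin s → List (ℤ × Mon n (Fin n))) : Poly (verify tab) := by
  have hw : Poly (fun p : (List (List (Fin n × Bool)) × List (Fin n × Bool)) ×
      (List Bool × List (ℤ × (Fin n → ℕ) × Fin s)) => selW p.2.1 p.1.1 ++ winv p.1.2) := by
    refine Poly.append ?_ ?_
    · refine Poly.flatMap (F := fun _ (q : Bool × List (Fin n × Bool)) =>
        if q.1 then q.2 else []) (Poly.zip (Poly.fst (Poly.snd Poly.id))
        (Poly.fst (Poly.fst Poly.id))) ?_
      exact (Poly.cond (Poly.fst (Poly.snd Poly.id)) (Poly.snd (Poly.snd Poly.id))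
        (Poly.const [])).congr fun q => by cases q.2.1 <;> rfl
    · refine Poly.reverse (Poly.map (F := fun _ (l : Fin n × Bool) => (l.1, !l.2))
        (Poly.snd (Poly.fst Poly.id)) ?_)
      exact Poly.pair (Poly.fst (Poly.snd Poly.id)) (Poly.not (Poly.snd (Poly.snd Poly.id)))
  have hN : Poly (fun p : (List (List (Fin n × Bool)) × List (Fin n × Bool)) ×
      (List Bool × List (ℤ × (Fin n → ℕ) × Fin s)) => totLen p.1) :=
    Poly.add (Poly.length (Poly.flatten (Poly.fst (Poly.fst Poly.id))))
      (Poly.length (Poly.snd (Poly.fst Poly.id)))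
  have hf := poly_flow hw hN (fun p => length_word_le p.2.1 p.1) (fun p => by
    have h1 := totLen_le p.1
    have h2 : sz p = sz p.1 + sz p.2 + 1 := sz_pair _ _
    omega)
  refine Poly.and (Poly.decide_eq (Poly.length (Poly.fst (Poly.snd Poly.id)))
    (Poly.length (Poly.fst (Poly.fst Poly.id)))) (poly_chk (Poly.append
      ((poly_terms tab).comp (Poly.snd (Poly.snd Poly.id)))
      (Poly.map (F := fun _ (t : ℤ × Mon n (Fin n)) => (-t.1, t.2)) (Poly.snd hf)
        (Poly.pair (Poly.ineg (Poly.fst (Poly.snd Poly.id))) (Poly.snd (Poly.snd Poly.id))))))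

theorem list_sum_mem {A : Type*} [AddCommGroup A] (N : AddSubgroup A) (L : List A)
    (h : ∀ x ∈ L, x ∈ N) : L.sum ∈ N := AddSubgroup.list_sum_mem N h

/-- The subset sum problem of a finitely generated metabelian group is in `NP`. -/
theorem inNPP_subsetSum {G : Type*} [Group G] [Metab G] (g : Fin n → G) :
    InNPP (SubsetSum g) := by
  obtain ⟨s, gb, C, hmem, hred⟩ := exists_basis (relN_shf g)
  choose tab htab using fun i => exists_tab (gb i)
  obtain ⟨q, hq⟩ : ∃ q : Polynomial ℕ, ∀ x, q.eval x =
      (4 * x + 1) + (((n * (2 * x) + 1) ^ n * n) * (((4 * (x + (((n * (2 * x) + 1) ^ n * n) *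
        (1 + C).size + 1)) + 5) + ((n * (4 * (n * (2 * x)) + 2) + 1) + (4 * s + 1) + 1) + 1) + 1)
          + 1) + 1 := by
    refine ⟨(Polynomial.C 4 * Polynomial.X + Polynomial.C 1) +
      ((((Polynomial.C n * (Polynomial.C 2 * Polynomial.X) + Polynomial.C 1) ^ n *
        Polynomial.C n) * (((Polynomial.C 4 * (Polynomial.X + (((Polynomial.C n *
          (Polynomial.C 2 * Polynomial.X) + Polynomial.C 1) ^ n * Polynomial.C n) *
        Polynomial.C ((1 + C).size) + Polynomial.C 1)) + Polynomial.C 5) +
          ((Polynomial.C n * (Polynomial.C 4 * (Polynomial.C n *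
          (Polynomial.C 2 * Polynomial.X)) + Polynomial.C 2) + Polynomial.C 1) +
          Polynomial.C (4 * s + 1) + Polynomial.C 1) + Polynomial.C 1) + Polynomial.C 1)) +
          Polynomial.C 1) + Polynomial.C 1, fun x => ?_⟩
    simp only [Polynomial.eval_add, Polynomial.eval_mul, Polynomial.eval_C,
      Polynomial.eval_X, Polynomial.eval_pow]
  refine inNPP_of (poly_verify tab) q fun I => ?_
  rw [subsetSum_iff]
  have key : ∀ (b : List Bool) (L : List (ℤ × (Fin n → ℕ) × Fin s)),
      verify tab (I, (b, L)) = true ↔ b.length = I.1.length ∧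
        (L.map fun t => t.1 • shf t.2.1 (gb t.2.2)).sum =
          toF (flow (totLen I) (selW b I.1 ++ winv I.2)).2 := by
    intro b L
    rw [verify, Bool.and_eq_true, decide_eq_true_eq, chk_iff, toF_append, toF_neg, toF_terms,
      add_neg_eq_zero]
    simp only [htab]
  constructor
  · rintro ⟨b, hb, hw⟩
    have hlen := length_word_le b I
    rw [wval_eq_one_iff g (totLen I) _ hlen] at hw
    set F := flow (totLen I) (selW b I.1 ++ winv I.2) with hF
    obtain ⟨-, h2, h3⟩ := flow_bound (totLen I) _ hlen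
    rw [← hF] at h2 h3
    obtain ⟨L, hL1, hL2, hL3⟩ := hred _ hw (n * (2 * totLen I)) (totLen I) (by
      intro m hm
      obtain ⟨t, ht, rfl⟩ := exists_of_toF_ne _ _ hm
      refine (Finset.sum_le_sum fun i _ => (h3 t ht).2 i).trans ?_
      simp) (by
      intro m
      refine (natAbs_toF_le _ (fun t ht => (h3 t ht).1) m).trans ?_
      rw [h2]; exact hlen)
    rw [Fintype.card_fin] at hL1 hL2
    refine ⟨(b, L), ?_, (key b L).2 ⟨hb, hL3.symm⟩⟩
    have hT := totLen_le I
    set x := sz I with hx
    have e0 : sz (b, L) = sz b + sz L + 1 := sz_pair _ _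
    have e1 := sz_listBool_le b
    have e2 : b.length ≤ x := by
      rw [hb]
      have := length_lt_sz I.1
      have h3 : sz I = sz I.1 + sz I.2 + 1 := sz_pair _ _
      omega
    have hD : (n * (2 * totLen I) + 1) ^ n * n ≤ (n * (2 * x) + 1) ^ n * n := by
      gcongr
    have e3 : sz L ≤ L.length * (((4 * (x + (((n * (2 * x) + 1) ^ n * n) *
        (1 + C).size + 1)) + 5) + ((n * (4 * (n * (2 * x)) + 2) + 1) + (4 * s + 1) + 1) + 1) + 1)
          + 1 := by
      refine sz_le_length_mul _ _ fun t ht => ?_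
      obtain ⟨h4, h5⟩ := hL2 t ht
      have e4 : sz t = sz t.1 + (sz t.2.1 + sz t.2.2 + 1) + 1 := by
        obtain ⟨a, b, c⟩ := t
        rw [sz_pair, sz_pair]
      have e5 := sz_int_le t.1
      have e6 := sz_vec_le t.2.1 (n * (2 * x)) (fun i => (h5 i).trans (by gcongr))
      have e7 := sz_fin_le t.2.2
      have e8 : t.1.natAbs.size ≤ x + (((n * (2 * x) + 1) ^ n * n) * (1 + C).size + 1) := by
        refine (Nat.size_le_size h4).trans ((size_mul_le _ _).trans ?_)
        have e9 := Poly.size_le_self (totLen I)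
        have e10 := size_pow_le (1 + C) ((n * (2 * totLen I) + 1) ^ n * n)
        have e11 : (n * (2 * totLen I) + 1) ^ n * n * (1 + C).size ≤
          (n * (2 * x) + 1) ^ n * n * (1 + C).size := Nat.mul_le_mul_right _ hD
        omega
      omega
    have e4 : L.length * (((4 * (x + (((n * (2 * x) + 1) ^ n * n) *
        (1 + C).size + 1)) + 5) + ((n * (4 * (n * (2 * x)) + 2) + 1) + (4 * s + 1) + 1) + 1) + 1)
        ≤ ((n * (2 * x) + 1) ^ n * n) * (((4 * (x + (((n * (2 * x) + 1) ^ n * n) *
        (1 + C).size + 1)) + 5) + ((n * (4 * (n * (2 * x)) + 2) + 1) + (4 * s + 1) + 1) + 1) + 1) :=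
      Nat.mul_le_mul_right _ (hL1.trans hD)
    rw [hq, e0]
    omega
  · rintro ⟨⟨b, L⟩, -, hv⟩
    obtain ⟨hb, hL⟩ := (key b L).1 hv
    refine ⟨b, hb, ?_⟩
    rw [wval_eq_one_iff g (totLen I) _ (length_word_le b I), ← hL]
    refine list_sum_mem _ _ fun x hx => ?_
    obtain ⟨t, -, rfl⟩ := List.mem_map.1 hx
    exact AddSubgroup.zsmul_mem _ (relN_shf g _ (hmem _) _) _

end main

end Pool.Agent.NPC.SSP648
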