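import Mathlib

/-!
# Elements of domains that are not roots of unity
-/

namespace Pool.Agent.H648R3.SSP

open Polynomial

/-- Coefficients allowed in the relations. -/
def Small (P : ℤ[X]) : Prop :=
  ∀ e, P.coeff e = -1 ∨ P.coeff e = 0 ∨ P.coeff e = 1 ∨ P.coeff e = 2

theorem char_p {D : Type*} [CommRing D] [IsDomain D] (p : ℕ) [Fact p.Prime] [CharP D p] (q : D)
    (hq0 : q ≠ 0) (hq : ∀ m, 1 ≤ m → q ^ m ≠ 1) (P : ℤ[X]) (h : aeval q P = 0) (e : ℕ) :
    (p : ℤ) ∣ P.coeff e := by
  let _ : Algebra (ZMod p) D := ZMod.algebra D p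
  by_contra hne
  have h1 : P.map (Int.castRingHom (ZMod p)) ≠ 0 := by
    intro h0
    apply hne
    have := congrArg (fun r => r.coeff e) h0
    simp only [coeff_map, coeff_zero, eq_intCast] at this
    rwa [ZMod.intCast_zmod_eq_zero_iff_dvd] at this
  have h2 : aeval q (P.map (Int.castRingHom (ZMod p))) = 0 := by
    rw [aeval_def, eval₂_map]
    have e : (algebraMap (ZMod p) D).comp (Int.castRingHom (ZMod p)) = algebraMap ℤ D :=
      RingHom.ext_int _ _
    rw [e]
    exact h
  have h3 : IsIntegral (ZMod p) q := IsAlgebraic.isIntegral ⟨_, h1, h2⟩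
  have h4 := h3.fg_adjoin_singleton
  have h5 : Module.Finite (ZMod p) (Algebra.adjoin (ZMod p) {q}) := Module.Finite.iff_fg.2 h4
  have h6 : Finite (Algebra.adjoin (ZMod p) {q}) := Module.finite_of_finite (ZMod p)
  obtain ⟨i, j, hij, hne⟩ := Finite.exists_ne_map_eq_of_infinite
    (fun i : ℕ => (⟨q ^ i, Subalgebra.pow_mem _ (Algebra.self_mem_adjoin_singleton _ _) i⟩ :
      Algebra.adjoin (ZMod p) {q}))
  have key : ∀ i j : ℕ, i < j → q ^ i = q ^ j → False := by
    intro i j hij h
    have h7 : q ^ i * q ^ (j - i) = q ^ i * 1 := by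
      rw [← pow_add, mul_one, h]; congr 1; omega
    exact hq (j - i) (by omega) (mul_left_cancel₀ (pow_ne_zero i hq0) h7)
  have h8 : q ^ i = q ^ j := congrArg Subtype.val hne
  rcases lt_or_gt_of_ne hij with h | h
  · exact key i j h h8
  · exact key j i h h8.symm

theorem cauchy {P : ℤ[X]} (hP : Small P) (hP0 : P ≠ 0) (z : ℂ) (hz : 3 ≤ ‖z‖) :
    aeval z P ≠ 0 := by
  intro h
  have h1 : P.map (Int.castRingHom ℂ) ≠ 0 :=
    (Polynomial.map_ne_zero_iff (RingHom.injective_int _)).2 hP0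
  have h2 : (P.map (Int.castRingHom ℂ)).IsRoot z := by
    rw [IsRoot.def, eval_map]
    exact h
  have h3 := h2.norm_lt_cauchyBound h1
  have h4 : cauchyBound (P.map (Int.castRingHom ℂ)) ≤ 2 / 1 + 1 := by
    rw [cauchyBound]
    gcongr
    · apply Finset.sup_le
      intro i _
      rw [coeff_map, eq_intCast]
      rcases hP i with h | h | h | h <;> rw [h] <;> simp
    · rw [leadingCoeff_map_of_injective (RingHom.injective_int _), eq_intCast]
      have h5 : P.leadingCoeff ≠ 0 := leadingCoeff_ne_zero.2 hP0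
      rcases hP P.natDegree with h | h | h | h
      · rw [← leadingCoeff] at h; rw [h]; simp
      · exact absurd h h5
      · rw [← leadingCoeff] at h; rw [h]; simp
      · rw [← leadingCoeff] at h; rw [h]; simp
  have h5 : ‖z‖₊ < 3 := h3.trans_le (h4.trans (by norm_num))
  have h6 : ‖z‖ < 3 := by exact_mod_cast h5
  linarith

section field

variable {F : Type*} [Field F] [CharZero F] (q : F)

open IntermediateField

theorem numberField_adjoin {q : F} (h : IsIntegral ℚ q) : NumberField ℚ⟮q⟯ :=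
  { to_charZero := inferInstance
    to_finiteDimensional := adjoin.finiteDimensional h }

theorem integral_case (hq0 : q ≠ 0) (hq : ∀ m, 1 ≤ m → q ^ m ≠ 1) (hi : IsIntegral ℤ q) :
    ∃ K : ℕ, 1 ≤ K ∧ ∀ P : ℤ[X], Small P → aeval (q ^ K) P = 0 → P = 0 := by
  have hiQ : IsIntegral ℚ q := hi.tower_top
  have := numberField_adjoin hiQ
  set x : ℚ⟮q⟯ := AdjoinSimple.gen ℚ q with hx
  have hxq : (algebraMap ℚ⟮q⟯ F) x = q := AdjoinSimple.algebraMap_gen ℚ q
  have hx0 : x ≠ 0 := by
    intro h; rw [h, map_zero] at hxq; exact hq0 hxq.symm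
  have hxi : IsIntegral ℤ x := by
    rw [← isIntegral_algebraMap_iff (algebraMap ℚ⟮q⟯ F).injective (B := F), hxq]
    exact hi
  have hφ : ∃ φ : ℚ⟮q⟯ →+* ℂ, 1 < ‖φ x‖ := by
    by_contra hcon
    push Not at hcon
    obtain ⟨n, hn, h⟩ := NumberField.Embeddings.pow_eq_one_of_norm_le_one ℚ⟮q⟯ ℂ hx0 hxi hcon
    apply hq n hn
    rw [← hxq, ← map_pow, h, map_one]
  obtain ⟨φ, hφ⟩ := hφ
  obtain ⟨K, hK⟩ := pow_unbounded_of_one_lt 3 hφ
  refine ⟨K, ?_, fun P hP h => ?_⟩
  · by_contra h0
    have : K = 0 := by omega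
    rw [this, pow_zero] at hK
    norm_num at hK
  · by_contra hP0
    refine cauchy hP hP0 (φ x ^ K) (by rw [norm_pow]; exact hK.le) ?_
    have h1 : aeval (x ^ K) P = 0 := by
      apply (algebraMap ℚ⟮q⟯ F).injective
      rw [← aeval_algebraMap_apply, map_pow, hxq, h, map_zero]
    have h2 := congrArg φ h1
    rw [map_zero] at h2
    rw [← h2]
    have h3 := Polynomial.hom_eval₂ P (algebraMap ℤ ℚ⟮q⟯) φ (x ^ K)
    rw [aeval_def, aeval_def, h3, map_pow]
    congr 1
    exact RingHom.ext_int _ _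

theorem not_integral_case (hi : ¬ IsIntegral ℤ q) : ∃ K : ℕ, ¬ IsIntegral ℤ (2 * q ^ K) := by
  by_contra hcon
  push Not at hcon
  have hiQ : IsIntegral ℚ q := by
    have h1 : IsIntegral ℚ (2 * q ^ 1) := (hcon 1).tower_top
    have h2 : IsIntegral ℚ ((algebraMap ℚ F (1 / 2)) * (2 * q ^ 1)) := isIntegral_algebraMap.mul h1
    convert h2 using 1
    rw [map_div₀, map_one, map_ofNat]
    field_simp
  have := numberField_adjoin hiQ
  set x : ℚ⟮q⟯ := AdjoinSimple.gen ℚ q with hx
  have hxq : (algebraMap ℚ⟮q⟯ F) x = q := AdjoinSimple.algebraMap_gen ℚ q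
  have hint : ∀ K : ℕ, IsIntegral ℤ (2 * x ^ K) := by
    intro K
    rw [← isIntegral_algebraMap_iff (algebraMap ℚ⟮q⟯ F).injective (B := F), map_mul, map_pow, hxq,
      map_ofNat]
    exact hcon K
  apply hi
  rw [← hxq, isIntegral_algebraMap_iff (algebraMap ℚ⟮q⟯ F).injective]
  let ψ : NumberField.RingOfIntegers ℚ⟮q⟯ →ₗ[ℤ] ℚ⟮q⟯ :=
    { toFun := fun y => (1 / 2) * (y : ℚ⟮q⟯)
      map_add' := fun a b => by simp [mul_add]
      map_smul' := fun a b => by simp; ring }
  let N : Submodule ℤ ℚ⟮q⟯ := Submodule.span ℤ (Set.range fun K : ℕ => x ^ K)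
  have hN : N ≤ LinearMap.range ψ := by
    rw [Submodule.span_le]
    rintro _ ⟨K, rfl⟩
    refine ⟨⟨2 * x ^ K, hint K⟩, ?_⟩
    change (1 / 2 : ℚ⟮q⟯) * (2 * x ^ K) = x ^ K
    field_simp
  have : IsNoetherian ℤ (LinearMap.range ψ) := inferInstance
  have : IsNoetherian ℤ N := isNoetherian_of_le hN
  refine isIntegral_of_smul_mem_submodule N ?_ ?_ x ?_
  · intro h
    have h1 : (1 : ℚ⟮q⟯) ∈ N := Submodule.subset_span ⟨0, pow_zero x⟩
    rw [h, Submodule.mem_bot] at h1
    exact one_ne_zero h1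
  · exact Module.Finite.iff_fg.1 inferInstance
  · intro n hn
    induction hn using Submodule.span_induction with
    | mem y hy =>
      obtain ⟨K, rfl⟩ := hy
      refine Submodule.subset_span ⟨K + 1, ?_⟩
      change x ^ (K + 1) = x * x ^ K
      ring
    | zero => rw [smul_zero]; exact N.zero_mem
    | add a b _ _ h1 h2 => rw [smul_add]; exact N.add_mem h1 h2
    | smul c a _ h =>
      rw [smul_comm]; exact N.smul_mem c h

theorem field_case (hq0 : q ≠ 0) (hq : ∀ m, 1 ≤ m → q ^ m ≠ 1) :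
    ∃ K : ℕ, 1 ≤ K ∧ ∀ P : ℤ[X], Small P → aeval (q ^ K) P = 0 → P = 0 := by
  by_cases hi : IsIntegral ℤ q
  · exact integral_case q hq0 hq hi
  · obtain ⟨K, hK⟩ := not_integral_case q hi
    refine ⟨K, ?_, fun P hP h => ?_⟩
    · by_contra h0
      have h1 : K = 0 := by omega
      apply hK
      rw [h1, pow_zero, mul_one]
      have : (2 : F) = algebraMap ℤ F 2 := by simp
      rw [this]
      exact isIntegral_algebraMap
    · by_contra hP0
      have h5 : P.leadingCoeff ≠ 0 := leadingCoeff_ne_zero.2 hP0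
      have h1 : IsIntegral ℤ (P.leadingCoeff • (q ^ K)) := isIntegral_leadingCoeff_smul P _ h
      apply hK
      have h2 : IsIntegral ℤ (2 : F) := by
        have : (2 : F) = algebraMap ℤ F 2 := by simp
        rw [this]
        exact isIntegral_algebraMap
      rcases hP P.natDegree with h | h | h | h
      · rw [← leadingCoeff] at h
        rw [h, neg_smul, one_smul] at h1
        have := (h2.mul h1).neg
        rwa [mul_neg, neg_neg] at this
      · exact absurd h h5
      · rw [← leadingCoeff] at h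
        rw [h, one_smul] at h1
        exact h2.mul h1
      · rw [← leadingCoeff] at h
        rw [h] at h1
        convert h1 using 1
        rw [zsmul_eq_mul]; norm_num

end field

theorem exists_K {D : Type*} [CommRing D] [IsDomain D] (q : D)
    (hq0 : q ≠ 0) (hq : ∀ m, 1 ≤ m → q ^ m ≠ 1) (h2 : (2 : D) ≠ 0) :
    ∃ K : ℕ, 1 ≤ K ∧ ∀ P : ℤ[X], Small P → aeval (q ^ K) P = 0 → P = 0 := by
  obtain ⟨p, hp⟩ := CharP.exists D
  rcases Nat.eq_zero_or_pos p with rfl | hpos
  · have : CharZero D := CharP.charP_to_charZero D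
    obtain ⟨K, hK, h⟩ := field_case (algebraMap D (FractionRing D) q)
      (by simpa using hq0) (fun m hm h => hq m hm (by
        apply IsFractionRing.injective D (FractionRing D)
        rw [map_pow, h, map_one]))
    refine ⟨K, hK, fun P hP hz => h P hP ?_⟩
    rw [← map_pow, aeval_algebraMap_apply, hz, map_zero]
  · have hpr : p.Prime := (CharP.char_is_prime_or_zero D p).resolve_right (by omega)
    have : Fact p.Prime := ⟨hpr⟩
    refine ⟨1, le_rfl, fun P hP hz => ?_⟩
    rw [pow_one] at hz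
    ext e
    rw [coeff_zero]
    have h3 := char_p p q hq0 hq P hz e
    have hp2 : p ≠ 2 := by
      rintro rfl
      apply h2
      exact_mod_cast CharP.cast_eq_zero D 2
    have hp3 : 3 ≤ p := by
      have := hpr.two_le
      omega
    by_contra hne
    have h4 := Int.natAbs_dvd_natAbs.2 h3
    have h5 := Nat.le_of_dvd (Nat.pos_of_ne_zero (by simpa using hne)) h4
    rcases hP e with h | h | h | h <;> rw [h] at h5 <;> simp at h5 <;> omega

theorem char_two {D : Type*} [CommRing D] [IsDomain D] (q : D)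
    (hq0 : q ≠ 0) (hq : ∀ m, 1 ≤ m → q ^ m ≠ 1) (h2 : (2 : D) = 0) (P : ℤ[X])
    (h : aeval q P = 0) (e : ℕ) : (2 : ℤ) ∣ P.coeff e := by
  have : Fact (Nat.Prime 2) := ⟨Nat.prime_two⟩
  have : CharP D 2 := CharTwo.of_one_ne_zero_of_two_eq_zero one_ne_zero h2
  exact_mod_cast char_p 2 q hq0 hq P h e

end Pool.Agent.H648R3.SSP
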