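import Pool.Agent.H648R3.SSP.Struct

/-!
# Independent conjugates in metabelian groups that are not virtually nilpotent
-/

namespace Pool.Agent.H648R3.SSP

open Polynomial

section group

variable {G : Type*} [Group G] [Metab G]

/-- The conjugates of `a` by the powers of `t` are independent for small coefficients along an
arithmetic progression. -/
def TypeZero (t : G) (a : Additive (commutator G)) : Prop :=
  ∃ K : ℕ, 1 ≤ K ∧ ∀ (M : ℕ) (c : ℕ → ℤ),
    (∀ e < M, c e = -1 ∨ c e = 0 ∨ c e = 1 ∨ c e = 2) →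
    ∑ e ∈ Finset.range M, c e • cj (t ^ (K * e)) a = 0 → ∀ e < M, c e = 0

/-- The conjugates of `a` by the powers of `t` are independent over the field with two elements,
and no positive power of `t` is in the commutator subgroup. -/
def TypeTwo (t : G) (a : Additive (commutator G)) : Prop :=
  a + a = 0 ∧ (∀ (M : ℕ) (c : ℕ → ℤ), ∑ e ∈ Finset.range M, c e • cj (t ^ e) a = 0 →
    ∀ e < M, 2 ∣ c e) ∧ ∀ m, 1 ≤ m → t ^ m ∉ commutator G

theorem un_pow (x : G) (k : ℕ) : (un x) ^ k = un (x ^ k) := by
  induction k with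
  | zero => rw [pow_zero, pow_zero, un_one]
  | succ k ih => rw [pow_succ, pow_succ, ih, un_mul]

/-- The polynomial of a coefficient sequence. -/
noncomputable def mkP (M : ℕ) (c : ℕ → ℤ) : ℤ[X] := ∑ e ∈ Finset.range M, C (c e) * X ^ e

theorem coeff_mkP (M : ℕ) (c : ℕ → ℤ) (e : ℕ) :
    (mkP M c).coeff e = if e < M then c e else 0 := by
  simp only [mkP, finsetSum_coeff, coeff_C_mul, coeff_X_pow]
  split_ifs with h
  · rw [Finset.sum_eq_single e]
    · simp
    · intro b _ hb; simp [Ne.symm hb]
    · intro h'; exact absurd (Finset.mem_range.2 h) h'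
  · refine Finset.sum_eq_zero fun b hb => ?_
    have : e ≠ b := by
      rintro rfl; exact h (Finset.mem_range.1 hb)
    simp [this]

theorem aeval_mkP {P : Ideal (GR G)} (x : G) (a : Additive (commutator G))
    (hP : ∀ r, r ∈ P ↔ r • a = 0) (K M : ℕ) (c : ℕ → ℤ) :
    aeval ((Ideal.Quotient.mk P (un x)) ^ K) (mkP M c) = 0 ↔
      ∑ e ∈ Finset.range M, c e • cj (x ^ (K * e)) a = 0 := by
  have h1 : aeval ((Ideal.Quotient.mk P (un x)) ^ K) (mkP M c) =
      Ideal.Quotient.mk P (∑ e ∈ Finset.range M, c e • un (x ^ (K * e))) := by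
    rw [mkP, map_sum, map_sum]
    refine Finset.sum_congr rfl fun e _ => ?_
    rw [map_mul, map_pow, aeval_C, aeval_X, map_zsmul, ← un_pow, map_pow, ← pow_mul]
    simp
  rw [h1, Ideal.Quotient.eq_zero_iff_mem, hP, Finset.sum_smul]
  simp only [smul_assoc, un_smul]

/-- Every finitely generated metabelian group that is not virtually nilpotent has one of the two
configurations. -/
theorem exists_types {n : ℕ} {g : Fin n → G} (hg : Subgroup.closure (Set.range g) = ⊤)
    (hnot : ¬ ∃ H : Subgroup G, H.FiniteIndex ∧ Group.IsNilpotent H) :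
    ∃ (i : Fin n) (a : Additive (commutator G)), TypeZero (g i) a ∨ TypeTwo (g i) a := by
  obtain ⟨i, a, P, hPp, hP, hm⟩ := exists_struct hg hnot
  have hdom : IsDomain (GR G ⧸ P) := Ideal.Quotient.isDomain P
  set q : GR G ⧸ P := Ideal.Quotient.mk P (un (g i)) with hq
  have hq0 : q ≠ 0 := by
    intro h
    have h1 : un (g i) * un (g i)⁻¹ = 1 := by rw [← un_mul, mul_inv_cancel, un_one]
    have h2 := congrArg (Ideal.Quotient.mk P) h1
    rw [map_mul, ← hq, h, zero_mul, map_one] at h2
    exact zero_ne_one h2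
  have hqm : ∀ m, 1 ≤ m → q ^ m ≠ 1 := by
    intro m h1 h2
    apply hm m h1
    rw [← Ideal.Quotient.eq_zero_iff_mem, map_sub, map_pow, ← hq, h2, map_one, sub_self]
  refine ⟨i, a, ?_⟩
  by_cases h2 : (2 : GR G ⧸ P) = 0
  · right
    refine ⟨?_, fun M c h e he => ?_, fun m h1 h3 => ?_⟩
    · have h3 : (2 : GR G) ∈ P := by
        rw [← Ideal.Quotient.eq_zero_iff_mem, map_ofNat]; exact h2
      rw [hP, two_smul] at h3
      exact h3
    · have h4 : aeval q (mkP M c) = 0 := by
        have := (aeval_mkP (g i) a hP 1 M c).2 (by simpa using h)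
        rwa [pow_one] at this
      have h5 := char_two q hq0 hqm h2 _ h4 e
      rwa [coeff_mkP, if_pos he] at h5
    · apply hm m h1
      rw [hP, sub_smul, one_smul, un_pow, un_smul, cj_of_mem h3]
      simp
  · left
    obtain ⟨K, hK, h3⟩ := exists_K q hq0 hqm h2
    refine ⟨K, hK, fun M c hc h e he => ?_⟩
    have h4 := h3 (mkP M c) (fun e => by
      rw [coeff_mkP]
      split_ifs with h5
      · exact hc e h5
      · simp) ((aeval_mkP (g i) a hP K M c).2 h)
    have h5 := congrArg (fun p => p.coeff e) h4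
    simpa [coeff_mkP, he] using h5

end group

end Pool.Agent.H648R3.SSP
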