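import Pool.Agent.H648R3.SSP.EC
import Pool.Agent.H648R3.SSP.Types
import Pool.Agent.H648R3.SSP.NPMem

/-!
# Reductions from exact cover to the subset sum problem
-/

namespace Pool.Agent.NPC.SSP648

open Pool.Agent.H648R3.SSP

section lists

variable {α : Type}

/-- The selected members of a list. -/
def selI (b : List Bool) (L : List α) : List α := ((b.zip L).filter fun p => p.1).map fun p => p.2

theorem selL_eq (b : List Bool) (L : List (List α)) : selL b L = (selI b L).flatten := by
  rw [selL, selI]
  induction b.zip L with
  | nil => rfl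
  | cons p l ih =>
    rw [List.flatMap_cons, ih]
    cases h : p.1 <;> simp [h]

theorem selI_map {β : Type} (b : List Bool) (f : α → β) (L : List α) :
    selI b (L.map f) = (selI b L).map f := by
  rw [selI, selI, List.zip_map_right, List.filter_map, List.map_map, List.map_map]
  rfl

theorem selI_append (b1 b2 : List Bool) (L1 L2 : List α) (h : b1.length = L1.length) :
    selI (b1 ++ b2) (L1 ++ L2) = selI b1 L1 ++ selI b2 L2 := by
  rw [selI, List.zip_append h, List.filter_append, List.map_append]
  rfl

theorem mem_selI {b : List Bool} {L : List α} {x : α} (h : x ∈ selI b L) : x ∈ L := by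
  rw [selI, List.mem_map] at h
  obtain ⟨p, hp, rfl⟩ := h
  exact (List.of_mem_zip (List.mem_filter.1 hp).1).2

theorem selI_sublist (b : List Bool) (L : List α) : (selI b L).Sublist L := by
  induction L generalizing b with
  | nil => simp [selI]
  | cons x L ih =>
    cases b with
    | nil => simp [selI]
    | cons c b =>
      have h : selI (c :: b) (x :: L) = (if c then [x] else []) ++ selI b L := by
        simp only [selI, List.zip_cons_cons, List.filter_cons]
        cases c <;> simp
      rw [h]
      cases c
      · exact (ih b).cons x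
      · exact (ih b).cons_cons x

theorem selW_eq {n : ℕ} (b : List Bool) (L : List (List (Fin n × Bool))) :
    selW b L = (selI b L).flatten := selL_eq b L

theorem count_sel_le (b : List Bool) (L : List (List ℕ)) (e : ℕ) :
    (selI b L).flatten.count e ≤ L.flatten.count e :=
  ((selI_sublist b L).flatten).count_le e

theorem sum_map_count {V : Type*} [AddCommGroup V] (F : ℕ → V) (L : List ℕ) (N : ℕ)
    (h : ∀ p ∈ L, p < N) : (L.map F).sum = ∑ p ∈ Finset.range N, (L.count p : ℤ) • F p := by
  induction L with
  | nil => simp
  | cons x L ih =>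
    rw [List.map_cons, List.sum_cons, ih fun p hp => h p (List.mem_cons_of_mem _ hp)]
    have hx := h x (by simp)
    have h1 : F x = ∑ p ∈ Finset.range N, ((if x = p then 1 else 0 : ℕ) : ℤ) • F p := by
      rw [Finset.sum_eq_single x]
      · simp
      · intro b _ hb; simp [Ne.symm hb]
      · intro h'; exact absurd (Finset.mem_range.2 hx) h'
    rw [h1, ← Finset.sum_add_distrib]
    refine Finset.sum_congr rfl fun p _ => ?_
    rw [← add_smul, List.count_cons]
    congr 1
    push_cast
    rw [add_comm]
    congr 1
    by_cases h2 : x = p <;> simp [h2]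

theorem length_eq_count (L : List ℕ) (N : ℕ) (h : ∀ p ∈ L, p < N) :
    L.length = ∑ p ∈ Finset.range N, L.count p := by
  have h1 := sum_map_count (fun _ => (1 : ℤ)) L N h
  simp only [List.map_const', List.sum_replicate, smul_eq_mul, mul_one, nsmul_eq_mul] at h1
  exact_mod_cast h1

theorem countP_eq_count (L : List ℕ) (N : ℕ) (h : ∀ p ∈ L, p < N) (P : ℕ → Bool) :
    L.countP P = ∑ p ∈ Finset.range N, if P p then L.count p else 0 := by
  induction L with
  | nil => simp
  | cons x L ih =>
    rw [List.countP_cons, ih fun p hp => h p (List.mem_cons_of_mem _ hp)]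
    have hx := h x (by simp)
    have h1 : (if P x = true then 1 else 0 : ℕ) =
        ∑ p ∈ Finset.range N, if P p then (if x = p then 1 else 0) else 0 := by
      rw [Finset.sum_eq_single x]
      · simp
      · intro b _ hb; simp [Ne.symm hb]
      · intro h'; exact absurd (Finset.mem_range.2 hx) h'
    rw [h1, ← Finset.sum_add_distrib]
    refine Finset.sum_congr rfl fun p _ => ?_
    rw [List.count_cons]
    by_cases h2 : x = p <;> by_cases h3 : P p = true <;> simp [h2, h3]

theorem countP_parity (X Y : List ℕ) (h : ∀ p, (2 : ℤ) ∣ (X.count p : ℤ) - Y.count p)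
    (P : ℕ → Bool) : X.countP P % 2 = Y.countP P % 2 := by
  obtain ⟨N, hN⟩ : ∃ N, ∀ p ∈ X ++ Y, p < N :=
    ⟨(X ++ Y).sum + 1, fun p hp => Nat.lt_succ_of_le (List.single_le_sum (by simp) p hp)⟩
  rw [countP_eq_count X N (fun p hp => hN p (List.mem_append_left _ hp)),
    countP_eq_count Y N (fun p hp => hN p (List.mem_append_right _ hp)),
    Finset.sum_nat_mod, Finset.sum_nat_mod (f := fun p => if P p then Y.count p else 0)]
  congr 1
  refine Finset.sum_congr rfl fun p _ => ?_
  have := h p
  split_ifs
  · omega
  · rfl

theorem sum_map_range {V : Type*} [AddCommMonoid V] (F : ℕ → V) (M : ℕ) :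
    ((List.range M).map F).sum = ∑ e ∈ Finset.range M, F e := by
  induction M with
  | zero => simp
  | succ N ih =>
    rw [List.range_succ, List.map_append, List.sum_append, ih, Finset.sum_range_succ]
    simp

theorem sum_div_mod {V : Type*} [AddCommMonoid V] (F : ℕ → ℕ → V) (M L : ℕ) :
    ∑ j ∈ Finset.range (M * L), F (j / L) (j % L) =
      ∑ e ∈ Finset.range M, ∑ c ∈ Finset.range L, F e c := by
  rcases Nat.eq_zero_or_pos L with rfl | hL
  · simp
  induction M with
  | zero => simp
  | succ M ih =>
    rw [Nat.succ_mul, Finset.sum_range_add, ih, Finset.sum_range_succ]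
    congr 1
    refine Finset.sum_congr rfl fun c hc => ?_
    have hc' := Finset.mem_range.1 hc
    rw [show (M * L + c) / L = M by
      rw [mul_comm, Nat.mul_add_div hL, Nat.div_eq_of_lt hc', add_zero],
      show (M * L + c) % L = c by
      rw [mul_comm, Nat.mul_add_mod, Nat.mod_eq_of_lt hc']]

end lists

section words

variable {G : Type*} [Group G] [Metab G] {n : ℕ} (g : Fin n → G) (i : Fin n)
  (A : List (Fin n × Bool))

/-- The word of a conjugate. -/
def bw (p : ℕ) : List (Fin n × Bool) :=
  List.replicate p (i, true) ++ A ++ List.replicate p (i, false)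

/-- The word of a list of conjugates. -/
def lw (l : List ℕ) : List (Fin n × Bool) := l.flatMap (bw i A)

omit [Metab G] in
theorem wval_replicate (p : ℕ) : wval g (List.replicate p (i, true)) = g i ^ p := by
  simp [wval, lval]

omit [Metab G] in
theorem wval_replicate' (p : ℕ) : wval g (List.replicate p (i, false)) = (g i ^ p)⁻¹ := by
  simp [wval, lval]

variable {g i A} {a : Additive (commutator G)} (hA : wval g A = ((a.toMul : commutator G) : G))

include hA

theorem wval_bw (p : ℕ) : wval g (bw i A p) = (((cj (g i ^ p) a).toMul : commutator G) : G) := by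
  rw [bw, wval_append, wval_append, wval_replicate, wval_replicate', hA]
  exact (cj_apply _ _).symm

theorem wval_lw (l : List ℕ) : wval g (lw i A l) =
    ((((l.map fun p => cj (g i ^ p) a).sum).toMul : commutator G) : G) := by
  induction l with
  | nil => rfl
  | cons p l ih =>
    have h : lw i A (p :: l) = bw i A p ++ lw i A l := by simp [lw]
    rw [h, wval_append, ih, wval_bw hA, List.map_cons, List.sum_cons]
    rfl

end words

section zero

variable {G : Type*} [Group G] [Metab G] {n : ℕ} {g : Fin n → G} {i : Fin n}
  {A : List (Fin n × Bool)} {a : Additive (commutator G)}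

omit [Metab G] in
theorem subsetSum_iff' (g : Fin n → G) (I : List (List (Fin n × Bool)) × List (Fin n × Bool)) :
    SubsetSum g I ↔ ∃ b : List Bool, b.length = I.1.length ∧
      wval g (selI b I.1).flatten = wval g I.2 := by
  rw [subsetSum_iff]
  simp only [selW_eq, wval_append, wval_winv, mul_inv_eq_one]

theorem pos_lt {I : List (List ℕ) × List Unit} (hI : PrEC I) (b : List Bool) :
    ∀ p ∈ (selI b I.1).flatten, p < I.2.length := by
  intro p hp
  obtain ⟨l, hl, hpl⟩ := List.mem_flatten.1 hp
  exact hI.1 l (mem_selI hl) p hpl

/-- The reduction for the first type. -/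
def f0 (i : Fin n) (A : List (Fin n × Bool)) (K : ℕ) (I : List (List ℕ) × List Unit) :
    List (List (Fin n × Bool)) × List (Fin n × Bool) :=
  (I.1.map fun l => l.flatMap fun e => bw i A (min (K * e) (K * I.2.length)),
    (List.range I.2.length).flatMap fun e => bw i A (min (K * e) (K * I.2.length)))

theorem f0_iff (hA : wval g A = ((a.toMul : commutator G) : G)) (K : ℕ)
    (hK : ∀ (M : ℕ) (c : ℕ → ℤ), (∀ e < M, c e = -1 ∨ c e = 0 ∨ c e = 1 ∨ c e = 2) →
      ∑ e ∈ Finset.range M, c e • cj (g i ^ (K * e)) a = 0 → ∀ e < M, c e = 0)
    (I : List (List ℕ) × List Unit) (hI : PrEC I) : EC I ↔ SubsetSum g (f0 i A K I) := by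
  rw [subsetSum_iff', EC]
  simp only [f0, List.length_map, selL_eq]
  refine exists_congr fun b => and_congr_right fun _ => ?_
  set M := I.2.length with hM
  have hlt := pos_lt hI b
  rw [← hM] at hlt
  have key : ∀ l : List ℕ, (∀ e ∈ l, e < M) →
      (l.flatMap fun e => bw i A (min (K * e) (K * M))) = lw i A (l.map fun e => K * e) := by
    intro l hl
    rw [lw, List.flatMap_map]
    refine List.flatMap_congr fun e he => ?_
    rw [min_eq_left (Nat.mul_le_mul_left K (hl e he).le)]
  have h1 : (selI b (I.1.map fun l => l.flatMap fun e =>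
      bw i A (min (K * e) (K * M)))).flatten =
      lw i A ((selI b I.1).flatten.map fun e => K * e) := by
    rw [← key _ hlt, selI_map]
    induction selI b I.1 with
    | nil => rfl
    | cons l L ih =>
      rw [List.map_cons, List.flatten_cons, ih, List.flatten_cons, List.flatMap_append]
  rw [h1, key _ (fun e he => List.mem_range.1 he), wval_lw hA, wval_lw hA, List.map_map,
    List.map_map]
  have h2 := sum_map_count (fun e => cj (g i ^ (K * e)) a) _ M hlt
  have h3 := sum_map_count (fun e => cj (g i ^ (K * e)) a) (List.range M) M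
    (fun e he => List.mem_range.1 he)
  constructor
  · intro h
    congr 2
    change (List.map (fun e => cj (g i ^ (K * e)) a) _).sum =
      (List.map (fun e => cj (g i ^ (K * e)) a) _).sum
    rw [h2, h3]
    refine Finset.sum_congr rfl fun e he => ?_
    have he' := Finset.mem_range.1 he
    rw [h e he', List.count_eq_one_of_mem (List.nodup_range) (List.mem_range.2 he')]
  · intro h
    have h4 : (List.map (fun e => cj (g i ^ (K * e)) a) (selI b I.1).flatten).sum =
        (List.map (fun e => cj (g i ^ (K * e)) a) (List.range M)).sum :=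
      Additive.toMul.injective (Subtype.ext h)
    rw [h2, h3, ← sub_eq_zero, ← Finset.sum_sub_distrib] at h4
    have h5 := hK M (fun e => ((selI b I.1).flatten.count e : ℤ) - 1) (fun e _ => by
      have := (count_sel_le b I.1 e).trans (hI.2 e)
      change ((selI b I.1).flatten.count e : ℤ) - 1 = -1 ∨
        ((selI b I.1).flatten.count e : ℤ) - 1 = 0 ∨
        ((selI b I.1).flatten.count e : ℤ) - 1 = 1 ∨
        ((selI b I.1).flatten.count e : ℤ) - 1 = 2
      omega) (by
      rw [← h4]
      refine Finset.sum_congr rfl fun e he => ?_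
      have he' := Finset.mem_range.1 he
      rw [← sub_smul, List.count_eq_one_of_mem (List.nodup_range) (List.mem_range.2 he')]
      norm_num)
    intro e he
    have := h5 e he
    change ((selI b I.1).flatten.count e : ℤ) - 1 = 0 at this
    omega

theorem poly_replicate {α β : Type} [TEnc α] [TEnc β] {m : α → ℕ} (hm : UPoly m) (x : β) :
    Poly (fun a => List.replicate (m a) x) :=
  (Poly.map (F := fun _ (_ : Unit) => x) hm (Poly.const x)).congr fun a => by simp

theorem poly_bw {α : Type} [TEnc α] {p B : α → ℕ} (hp : Poly p) (hB : UPoly B) (i : Fin n)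
    (A : List (Fin n × Bool)) : Poly (fun a => bw i A (min (p a) (B a))) := by
  have hm : UPoly (fun a => min (p a) (B a)) :=
    UPoly.of_le (Poly.min hp hB.toPoly) hB fun a => min_le_right _ _
  exact Poly.append (Poly.append (poly_replicate hm _) (Poly.const A)) (poly_replicate hm _)

theorem poly_f0 (i : Fin n) (A : List (Fin n × Bool)) (K : ℕ) : Poly (f0 i A K) := by
  have hM : UPoly (fun I : List (List ℕ) × List Unit => I.2.length) :=
    UPoly.length (Poly.snd Poly.id)
  refine Poly.pair ?_ ?_
  · refine Poly.map (F := fun (I : List (List ℕ) × List Unit) (l : List ℕ) =>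
      l.flatMap fun e => bw i A (min (K * e) (K * I.2.length))) (Poly.fst Poly.id) ?_
    refine Poly.flatMap (F := fun (p : (List (List ℕ) × List Unit) × List ℕ) (e : ℕ) =>
      bw i A (min (K * e) (K * p.1.2.length))) (Poly.snd Poly.id) ?_
    exact poly_bw (Poly.mul (Poly.const K) (Poly.snd Poly.id))
      (UPoly.mul (UPoly.const K) (UPoly.length (Poly.snd (Poly.fst (Poly.fst Poly.id))))) i A
  · refine Poly.flatMap (F := fun (I : List (List ℕ) × List Unit) (e : ℕ) =>
      bw i A (min (K * e) (K * I.2.length))) (UPoly.range hM) ?_
    exact poly_bw (Poly.mul (Poly.const K) (Poly.snd Poly.id))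
      (UPoly.mul (UPoly.const K) (UPoly.length (Poly.snd (Poly.fst Poly.id)))) i A

theorem hard_zero (hA : wval g A = ((a.toMul : commutator G) : G)) (h : TypeZero (g i) a) :
    NPHardP (SubsetSum g) := by
  obtain ⟨K, -, hK⟩ := h
  exact (hardPr_EC.trans (Pr' := fun _ => True) (poly_f0 i A K) (fun _ _ => trivial)
    (f0_iff hA K hK)).toHardI.toNPHardP

end zero

section core

/-- The positions with their shifts. -/
def posList : ℕ → List (List ℕ) → List (ℕ × ℕ)
  | _, [] => []
  | s, l :: S => l.map (fun e => (e, s)) ++ posList (s + l.length) S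

theorem posList_fst (S : List (List ℕ)) : ∀ s, (posList s S).map Prod.fst = S.flatten := by
  induction S with
  | nil => intro s; rfl
  | cons l S ih =>
    intro s
    rw [posList, List.map_append, ih, List.map_map, List.flatten_cons]
    congr 1
    exact List.map_id'' (fun _ => rfl) l

theorem posList_snd (S : List (List ℕ)) : ∀ s, ∀ p ∈ posList s S, p.2 ≤ s + S.flatten.length := by
  induction S with
  | nil => intro s p hp; simp [posList] at hp
  | cons l S ih =>
    intro s p hp
    rw [posList, List.mem_append, List.mem_map] at hp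
    rw [List.flatten_cons, List.length_append]
    rcases hp with ⟨e, _, rfl⟩ | hp
    · change s ≤ _
      omega
    · have := ih _ p hp
      omega

/-- The first position of the clean-up item `j`. -/
def cpos (M j : ℕ) : ℕ := (3 * M + 1) * (j / (3 * M)) + j % (3 * M)

/-- The clean-up items. -/
def pairs (M : ℕ) : List (List ℕ) :=
  (List.range (M * (3 * M))).map fun j => [cpos M j, cpos M j + 1]

theorem even_flatten (L : List (List ℕ)) (Q : ℕ → Bool) (h : ∀ l ∈ L, l.countP Q % 2 = 0) :
    L.flatten.countP Q % 2 = 0 := by
  induction L with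
  | nil => simp
  | cons l L ih =>
    have h1 := h l (by simp)
    have h2 := ih fun l hl => h l (List.mem_cons_of_mem _ hl)
    rw [List.flatten_cons, List.countP_append]
    omega

theorem div_pos_eq (D e s : ℕ) (hs : s < D) : (D * e + s) / D = e := by
  rw [Nat.mul_add_div (by omega), Nat.div_eq_of_lt hs, add_zero]

theorem even_pairs (M : ℕ) (e : ℕ) : ∀ l ∈ pairs M,
    l.countP (fun p => decide (p / (3 * M + 1) = e)) % 2 = 0 := by
  intro l hl
  obtain ⟨j, hj, rfl⟩ := List.mem_map.1 hl
  have hj' := List.mem_range.1 hj
  have hM : 0 < M := by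
    rcases Nat.eq_zero_or_pos M with rfl | h
    · simp at hj'
    · exact h
  have h1 : j % (3 * M) < 3 * M := Nat.mod_lt _ (by omega)
  have h2 : cpos M j / (3 * M + 1) = j / (3 * M) := by
    rw [cpos, div_pos_eq _ _ _ (by omega)]
  have h3 : (cpos M j + 1) / (3 * M + 1) = j / (3 * M) := by
    rw [cpos, add_assoc, div_pos_eq _ _ _ (by omega)]
  by_cases h : j / (3 * M) = e
  · simp [h2, h3, h]
  · simp [h2, h3, h]

variable {V : Type*} [AddCommGroup V] (F : ℕ → V) (h2 : ∀ p, F p + F p = 0)
  (hind : ∀ (N : ℕ) (c : ℕ → ℤ), ∑ e ∈ Finset.range N, c e • F e = 0 → ∀ e < N, 2 ∣ c e)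

include h2 hind

theorem core (M : ℕ) (S : List (List ℕ)) (hS : ∀ e ∈ S.flatten, e < M) :
    (∀ e < M, S.flatten.count e = 1) ↔ ∃ b : List Bool, b.length = (pairs M).length ∧
      S.flatten.length = M ∧
      ((selI b (pairs M)).flatten.map F).sum +
        ((posList 0 S).map fun p => F ((3 * M + 1) * p.1 + p.2)).sum =
        ((List.range M).map fun e => F ((3 * M + 1) * e)).sum := by
  have hlen := length_eq_count S.flatten M hS
  constructor
  · intro h
    have hlen' : S.flatten.length = M := by
      rw [hlen, Finset.sum_congr rfl fun e he => h e (Finset.mem_range.1 he)]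
      simp
    have hnd : ((posList 0 S).map Prod.fst).Nodup := by
      rw [posList_fst, List.nodup_iff_count_le_one]
      intro e
      by_cases he : e < M
      · exact (h e he).le
      · rw [List.count_eq_zero_of_not_mem fun hm => he (hS e hm)]
        exact Nat.zero_le _
    have hex : ∀ e, ∃ s, (∀ s', (e, s') ∈ posList 0 S → s' = s) ∧ s ≤ 3 * M := by
      intro e
      by_cases he : ∃ s, (e, s) ∈ posList 0 S
      · obtain ⟨s, hs⟩ := he
        refine ⟨s, fun s' hs' => ?_, ?_⟩
        · have := List.inj_on_of_nodup_map hnd hs' hs rfl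
          exact congrArg Prod.snd this
        · have := posList_snd S 0 _ hs
          simp only at this
          omega
      · exact ⟨0, fun s' hs' => absurd ⟨s', hs'⟩ he, Nat.zero_le _⟩
    choose σ hσ hσ' using hex
    refine ⟨(List.range (M * (3 * M))).map fun j => decide (j % (3 * M) < σ (j / (3 * M))),
      by simp [pairs], hlen', ?_⟩
    have e1 : ((selI ((List.range (M * (3 * M))).map fun j =>
        decide (j % (3 * M) < σ (j / (3 * M)))) (pairs M)).flatten.map F).sum =
        ∑ e ∈ Finset.range M, (F ((3 * M + 1) * e + σ e) - F ((3 * M + 1) * e)) := by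
      rw [← selL_eq, pairs, selL_map]
      have e2 : ∀ N, (((List.range N).flatMap fun j =>
          if decide (j % (3 * M) < σ (j / (3 * M))) = true then [cpos M j, cpos M j + 1]
          else []).map F).sum = ∑ j ∈ Finset.range N,
          if j % (3 * M) < σ (j / (3 * M)) then F (cpos M j) + F (cpos M j + 1) else 0 := by
        intro N
        induction N with
        | zero => simp
        | succ N ih =>
          rw [List.range_succ, List.flatMap_append, List.map_append, List.sum_append, ih,
            Finset.sum_range_succ]
          congr 1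
          by_cases hh : N % (3 * M) < σ (N / (3 * M)) <;> simp [hh]
      rw [e2]
      have e3 := sum_div_mod (fun e c => if c < σ e then
        F ((3 * M + 1) * e + c) + F ((3 * M + 1) * e + c + 1) else 0) M (3 * M)
      refine Eq.trans ?_ (e3.trans ?_)
      · rfl
      · refine Finset.sum_congr rfl fun e _ => ?_
        rw [← Finset.sum_filter]
        have e4 : (Finset.range (3 * M)).filter (fun c => c < σ e) = Finset.range (σ e) := by
          ext c
          have := hσ' e
          simp only [Finset.mem_filter, Finset.mem_range]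
          omega
        rw [e4]
        have e5 : ∀ c, F ((3 * M + 1) * e + c) + F ((3 * M + 1) * e + c + 1) =
            F ((3 * M + 1) * e + (c + 1)) - F ((3 * M + 1) * e + c) := by
          intro c
          rw [eq_sub_iff_add_eq]
          have := h2 ((3 * M + 1) * e + c)
          rw [add_right_comm, this, zero_add]
          rfl
        rw [Finset.sum_congr rfl fun c _ => e5 c]
        exact Finset.sum_range_sub (fun c => F ((3 * M + 1) * e + c)) (σ e)
    have e6 : ((posList 0 S).map fun p => F ((3 * M + 1) * p.1 + p.2)).sum =
        ∑ e ∈ Finset.range M, F ((3 * M + 1) * e + σ e) := by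
      have e7 : ((posList 0 S).map fun p => F ((3 * M + 1) * p.1 + p.2)) =
          (((posList 0 S).map Prod.fst).map fun e => F ((3 * M + 1) * e + σ e)) := by
        rw [List.map_map]
        refine List.map_congr_left fun p hp => ?_
        rw [hσ p.1 p.2 hp]
        rfl
      rw [e7, posList_fst, sum_map_count _ _ M hS]
      refine Finset.sum_congr rfl fun e he => ?_
      rw [h e (Finset.mem_range.1 he)]
      simp
    have e8 : ((List.range M).map fun e => F ((3 * M + 1) * e)).sum =
        ∑ e ∈ Finset.range M, F ((3 * M + 1) * e) := by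
      exact sum_map_range _ M
    rw [e1, e6, e8, ← Finset.sum_add_distrib]
    refine Finset.sum_congr rfl fun e _ => ?_
    have h3 := h2 ((3 * M + 1) * e + σ e)
    have h4 := h2 ((3 * M + 1) * e)
    rw [sub_add_eq_add_sub, h3, zero_sub, neg_eq_iff_add_eq_zero, h4]
  · rintro ⟨b, -, hM, hsum⟩
    set D := 3 * M + 1 with hD
    set X := (selI b (pairs M)).flatten ++ (posList 0 S).map (fun p => D * p.1 + p.2) with hX
    set Y := (List.range M).map (fun e => D * e) with hY
    have hXY : (X.map F).sum = (Y.map F).sum := by
      rw [hX, hY, List.map_append, List.sum_append, List.map_map, List.map_map]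
      exact hsum
    have hpar : ∀ p, (2 : ℤ) ∣ (X.count p : ℤ) - Y.count p := by
      obtain ⟨N, hN⟩ : ∃ N, ∀ p ∈ X ++ Y, p < N :=
        ⟨(X ++ Y).sum + 1, fun p hp => Nat.lt_succ_of_le (List.single_le_sum (by simp) p hp)⟩
      rw [sum_map_count F X N (fun p hp => hN p (List.mem_append_left _ hp)),
        sum_map_count F Y N (fun p hp => hN p (List.mem_append_right _ hp)),
        ← sub_eq_zero, ← Finset.sum_sub_distrib] at hXY
      simp only [← sub_smul] at hXY
      have h3 := hind N (fun p => (X.count p : ℤ) - Y.count p) hXY
      intro p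
      by_cases hp : p < N
      · exact h3 p hp
      · rw [List.count_eq_zero_of_not_mem fun hm => hp (hN p (List.mem_append_left _ hm)),
          List.count_eq_zero_of_not_mem fun hm => hp (hN p (List.mem_append_right _ hm))]
        simp
    have hodd : ∀ e < M, S.flatten.count e % 2 = 1 := by
      intro e he
      have h3 := countP_parity X Y hpar (fun p => decide (p / D = e))
      have h4 : X.countP (fun p => decide (p / D = e)) % 2 = S.flatten.count e % 2 := by
        rw [hX, List.countP_append]
        have h5 := even_flatten (selI b (pairs M)) (fun p => decide (p / D = e))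
          (fun l hl => even_pairs M e l (mem_selI hl))
        have h6 : ((posList 0 S).map (fun p => D * p.1 + p.2)).countP
            (fun p => decide (p / D = e)) = S.flatten.count e := by
          rw [List.countP_map, ← posList_fst S 0, List.count, List.countP_map]
          refine List.countP_congr fun p hp => ?_
          have h7 := posList_snd S 0 p hp
          rw [hM] at h7
          simp only [Function.comp_apply, decide_eq_true_eq, beq_iff_eq]
          rw [div_pos_eq D p.1 p.2 (by omega)]
        omega
      have h5 : Y.countP (fun p => decide (p / D = e)) = 1 := by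
        rw [hY, List.countP_map]
        have h6 : (List.range M).countP ((fun p => decide (p / D = e)) ∘ fun e => D * e) =
            (List.range M).count e := by
          rw [List.count]
          refine List.countP_congr fun p _ => ?_
          simp only [Function.comp_apply, decide_eq_true_eq, beq_iff_eq]
          rw [Nat.mul_div_cancel_left p (by omega)]
        rw [h6]
        exact List.count_eq_one_of_mem List.nodup_range (List.mem_range.2 he)
      rw [h4, h5] at h3
      exact h3
    rw [hM] at hlen
    have h3 : ∑ e ∈ Finset.range M, 1 = ∑ e ∈ Finset.range M, S.flatten.count e := by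
      rw [← hlen]; simp
    have h4 := (Finset.sum_eq_sum_iff_of_le (fun e he => by
      have := hodd e (Finset.mem_range.1 he)
      omega)).1 h3
    intro e he
    exact (h4 e (Finset.mem_range.2 he)).symm

end core

section two

variable {G : Type*} [Group G] [Metab G] {n : ℕ} {g : Fin n → G} {i : Fin n}
  {A : List (Fin n × Bool)} {a : Additive (commutator G)}

/-- The word of an item with its shift. -/
def vw (i : Fin n) (A : List (Fin n × Bool)) (D : ℕ) (l : List ℕ) : List (Fin n × Bool) :=
  lw i A (l.map fun e => D * e) ++ List.replicate l.length (i, true)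

theorem cj_cj (x y : G) (v : Additive (commutator G)) : cj x (cj y v) = cj (x * y) v := by
  rw [cj_mul]; rfl

theorem wval_vw (hA : wval g A = ((a.toMul : commutator G) : G)) (D : ℕ) (S : List (List ℕ)) :
    ∀ s, g i ^ s * wval g (S.map (vw i A D)).flatten =
      (((((posList s S).map fun p => cj (g i ^ (D * p.1 + p.2)) a).sum).toMul : commutator G) : G) *
        g i ^ (s + S.flatten.length) := by
  induction S with
  | nil => intro s; simp [posList]
  | cons l S ih =>
    intro s
    rw [List.map_cons, List.flatten_cons, wval_append, vw, wval_append, wval_lw hA,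
      wval_replicate, posList, List.map_append, List.sum_append, List.flatten_cons,
      List.length_append, ← add_assoc s, toMul_add, Subgroup.coe_mul, mul_assoc _ _ (g i ^ _),
      ← ih (s + l.length), List.map_map, List.map_map]
    have h1 : (List.map ((fun p : ℕ × ℕ => cj (g i ^ (D * p.1 + p.2)) a) ∘ fun e => (e, s)) l).sum =
        cj (g i ^ s) (List.map ((fun p => cj (g i ^ p) a) ∘ fun e => D * e) l).sum := by
      rw [map_list_sum, List.map_map]
      congr 1
      refine List.map_congr_left fun e _ => ?_
      simp only [Function.comp_apply]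
      rw [cj_cj, ← pow_add, add_comm]
    rw [h1]
    have h2 := cj_apply (g i ^ s)
      ((List.map ((fun p => cj (g i ^ p) a) ∘ fun e => D * e) l).sum.toMul : commutator G)
    rw [ofMul_toMul] at h2
    rw [h2, pow_add]
    group

/-- The reduction for the second type. -/
def f2 (i : Fin n) (A : List (Fin n × Bool)) (I : List (List ℕ) × List Unit) :
    List (List (Fin n × Bool)) × List (Fin n × Bool) :=
  (((List.range (I.2.length * (3 * I.2.length))).map fun j =>
      bw i A (min (cpos I.2.length j) ((3 * I.2.length + 1) * (I.2.length + 1))) ++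
        bw i A (min (cpos I.2.length j + 1) ((3 * I.2.length + 1) * (I.2.length + 1)))) ++
    I.1.map fun l => (l.flatMap fun e => bw i A (min ((3 * I.2.length + 1) * e)
      ((3 * I.2.length + 1) * (I.2.length + 1)))) ++ List.replicate l.length (i, true),
    ((List.range I.2.length).flatMap fun e => bw i A (min ((3 * I.2.length + 1) * e)
      ((3 * I.2.length + 1) * (I.2.length + 1)))) ++ List.replicate I.2.length (i, true))

theorem f2_eq (i : Fin n) (A : List (Fin n × Bool)) (I : List (List ℕ) × List Unit)
    (hI : PrEC I) : f2 i A I = ((pairs I.2.length).map (lw i A) ++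
      I.1.map (vw i A (3 * I.2.length + 1)),
      lw i A ((List.range I.2.length).map fun e => (3 * I.2.length + 1) * e) ++
        List.replicate I.2.length (i, true)) := by
  set M := I.2.length with hM
  have key : ∀ l : List ℕ, (∀ e ∈ l, e < M) →
      (l.flatMap fun e => bw i A (min ((3 * M + 1) * e) ((3 * M + 1) * (M + 1)))) =
        lw i A (l.map fun e => (3 * M + 1) * e) := by
    intro l hl
    rw [lw, List.flatMap_map]
    refine List.flatMap_congr fun e he => ?_
    rw [min_eq_left (Nat.mul_le_mul_left _ (by have := hl e he; omega))]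
  rw [f2, ← hM]
  refine Prod.ext ?_ ?_
  · simp only
    congr 1
    · rw [pairs, List.map_map]
      refine List.map_congr_left fun j hj => ?_
      have hj' := List.mem_range.1 hj
      have hM0 : 0 < M := by
        rcases Nat.eq_zero_or_pos M with h | h
        · rw [h] at hj'; simp at hj'
        · exact h
      have h1 : j / (3 * M) < M := Nat.div_lt_of_lt_mul (by rw [mul_comm]; exact hj')
      have h2 : j % (3 * M) < 3 * M := Nat.mod_lt _ (by omega)
      have h3 : cpos M j + 1 ≤ (3 * M + 1) * (M + 1) := by
        have : (3 * M + 1) * (j / (3 * M)) ≤ (3 * M + 1) * M := Nat.mul_le_mul_left _ h1.le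
        rw [cpos, mul_add, mul_one]
        omega
      rw [min_eq_left h3, min_eq_left (by omega)]
      simp [lw]
    · refine List.map_congr_left fun l hl => ?_
      rw [vw, key l (hI.1 l hl)]
  · simp only
    rw [key _ fun e he => List.mem_range.1 he]

omit [Metab G] in
theorem pow_split {t x y : G} {k m : ℕ} (hx : x ∈ commutator G) (hy : y ∈ commutator G)
    (ht : ∀ m, 1 ≤ m → t ^ m ∉ commutator G) (h : x * t ^ k = y * t ^ m) : k = m ∧ x = y := by
  have hkm : k = m := by
    rcases lt_trichotomy k m with h1 | h1 | h1
    · exfalso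
      apply ht (m - k) (by omega)
      have h2 : t ^ m = t ^ (m - k) * t ^ k := by rw [← pow_add]; congr 1; omega
      rw [h2, ← mul_assoc] at h
      have h3 := mul_right_cancel h
      have h4 : t ^ (m - k) = y⁻¹ * x := by rw [h3]; group
      rw [h4]
      exact Subgroup.mul_mem _ (Subgroup.inv_mem _ hy) hx
    · exact h1
    · exfalso
      apply ht (k - m) (by omega)
      have h2 : t ^ k = t ^ (k - m) * t ^ m := by rw [← pow_add]; congr 1; omega
      rw [h2, ← mul_assoc] at h
      have h3 := mul_right_cancel h
      have h4 : t ^ (k - m) = x⁻¹ * y := by rw [← h3]; group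
      rw [h4]
      exact Subgroup.mul_mem _ (Subgroup.inv_mem _ hx) hy
  subst hkm
  exact ⟨rfl, mul_right_cancel h⟩

theorem f2_iff (hA : wval g A = ((a.toMul : commutator G) : G)) (h2 : TypeTwo (g i) a)
    (I : List (List ℕ) × List Unit) (hI : PrEC I) : EC I ↔ SubsetSum g (f2 i A I) := by
  obtain ⟨h2a, hind, hpow⟩ := h2
  rw [subsetSum_iff', EC, f2_eq i A I hI]
  set M := I.2.length with hM
  have hFF : ∀ p, cj (g i ^ p) a + cj (g i ^ p) a = 0 := fun p => by
    rw [← map_add, h2a, map_zero]
  have hval : ∀ b1 b2 : List Bool, b1.length = (pairs M).length →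
      wval g (selI (b1 ++ b2) ((pairs M).map (lw i A) ++ I.1.map (vw i A (3 * M + 1)))).flatten =
        ((((((selI b1 (pairs M)).flatten.map fun p => cj (g i ^ p) a).sum) +
          ((posList 0 (selI b2 I.1)).map fun p => cj (g i ^ ((3 * M + 1) * p.1 + p.2)) a).sum).toMul
            : commutator G) : G) * g i ^ (selI b2 I.1).flatten.length := by
    intro b1 b2 hb
    rw [selI_append _ _ _ _ (by simpa using hb), List.flatten_append, wval_append, selI_map,
      selI_map]
    have e1 : ((selI b1 (pairs M)).map (lw i A)).flatten = lw i A (selI b1 (pairs M)).flatten := by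
      induction selI b1 (pairs M) with
      | nil => rfl
      | cons l L ih =>
        rw [List.map_cons, List.flatten_cons, ih, List.flatten_cons, lw, lw, lw,
          List.flatMap_append]
    have e2 := wval_vw (i := i) hA (3 * M + 1) (selI b2 I.1) 0
    rw [pow_zero, one_mul, zero_add] at e2
    rw [e1, wval_lw hA, e2, toMul_add, Subgroup.coe_mul, mul_assoc]
  have htgt : wval g (lw i A ((List.range M).map fun e => (3 * M + 1) * e) ++
      List.replicate M (i, true)) =
      (((((List.range M).map fun e => cj (g i ^ ((3 * M + 1) * e)) a).sum).toMul : commutator G)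
        : G) * g i ^ M := by
    rw [wval_append, wval_lw hA, wval_replicate, List.map_map]
    rfl
  constructor
  · rintro ⟨b, hb, h⟩
    simp only [selL_eq] at h
    obtain ⟨b1, hb1, h3, h4⟩ := (core (fun p => cj (g i ^ p) a) hFF hind M (selI b I.1)
      (pos_lt hI b)).1 h
    refine ⟨b1 ++ b, by simp [hb1, hb], ?_⟩
    rw [hval b1 b hb1, htgt, h4, h3]
  · rintro ⟨b, hb, h⟩
    have hb' : b.length = (pairs M).length + I.1.length := by simpa using hb
    refine ⟨b.drop (pairs M).length, by rw [List.length_drop]; omega, ?_⟩
    rw [← List.take_append_drop (pairs M).length b,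
      hval _ _ (by rw [List.length_take]; omega), htgt] at h
    obtain ⟨h3, h4⟩ := pow_split (SetLike.coe_mem _) (SetLike.coe_mem _) hpow h
    simp only [selL_eq]
    refine (core (fun p => cj (g i ^ p) a) hFF hind M (selI (b.drop (pairs M).length) I.1)
      (pos_lt hI _)).2 ⟨b.take (pairs M).length, by rw [List.length_take]; omega, h3, ?_⟩
    exact Additive.toMul.injective (Subtype.ext h4)

theorem poly_f2 (i : Fin n) (A : List (Fin n × Bool)) : Poly (f2 i A) := by
  have hM : UPoly (fun I : List (List ℕ) × List Unit => I.2.length) :=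
    UPoly.length (Poly.snd Poly.id)
  have h3 : UPoly (fun I : List (List ℕ) × List Unit => 3 * I.2.length) :=
    UPoly.mul (UPoly.const 3) hM
  have hD : UPoly (fun I : List (List ℕ) × List Unit => 3 * I.2.length + 1) :=
    UPoly.add h3 (UPoly.const 1)
  have hB : UPoly (fun I : List (List ℕ) × List Unit =>
      (3 * I.2.length + 1) * (I.2.length + 1)) := UPoly.mul hD (UPoly.add hM (UPoly.const 1))
  have hpos : Poly (fun p : (List (List ℕ) × List Unit) × ℕ => cpos p.1.2.length p.2) := by
    have e1 : Poly (fun p : (List (List ℕ) × List Unit) × ℕ => 3 * p.1.2.length) :=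
      (UPoly.comp h3 (Poly.fst Poly.id)).toPoly
    exact Poly.add (Poly.mul (UPoly.comp hD (Poly.fst Poly.id)).toPoly
      (Poly.div (Poly.snd Poly.id) e1)) (Poly.mod (Poly.snd Poly.id) e1)
  refine Poly.pair (Poly.append ?_ ?_) (Poly.append ?_ (poly_replicate hM _))
  · refine Poly.map (F := fun (I : List (List ℕ) × List Unit) (j : ℕ) =>
      bw i A (min (cpos I.2.length j) ((3 * I.2.length + 1) * (I.2.length + 1))) ++
        bw i A (min (cpos I.2.length j + 1) ((3 * I.2.length + 1) * (I.2.length + 1))))
      (UPoly.range (UPoly.mul hM h3)) ?_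
    exact Poly.append (poly_bw hpos (UPoly.comp hB (Poly.fst Poly.id)) i A)
      (poly_bw (Poly.add hpos (Poly.const 1)) (UPoly.comp hB (Poly.fst Poly.id)) i A)
  · refine Poly.map (F := fun (I : List (List ℕ) × List Unit) (l : List ℕ) =>
      (l.flatMap fun e => bw i A (min ((3 * I.2.length + 1) * e)
      ((3 * I.2.length + 1) * (I.2.length + 1)))) ++ List.replicate l.length (i, true))
      (Poly.fst Poly.id) ?_
    refine Poly.append ?_ (poly_replicate (UPoly.length (Poly.snd Poly.id)) _)
    refine Poly.flatMap (F := fun (p : (List (List ℕ) × List Unit) × List ℕ) (e : ℕ) =>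
      bw i A (min ((3 * p.1.2.length + 1) * e)
      ((3 * p.1.2.length + 1) * (p.1.2.length + 1)))) (Poly.snd Poly.id) ?_
    exact poly_bw (Poly.mul (UPoly.comp hD (Poly.fst (Poly.fst Poly.id))).toPoly
      (Poly.snd Poly.id)) (UPoly.comp hB (Poly.fst (Poly.fst Poly.id))) i A
  · refine Poly.flatMap (F := fun (I : List (List ℕ) × List Unit) (e : ℕ) =>
      bw i A (min ((3 * I.2.length + 1) * e)
      ((3 * I.2.length + 1) * (I.2.length + 1)))) (UPoly.range hM) ?_
    exact poly_bw (Poly.mul (UPoly.comp hD (Poly.fst Poly.id)).toPoly
      (Poly.snd Poly.id)) (UPoly.comp hB (Poly.fst Poly.id)) i A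

theorem hard_two (hA : wval g A = ((a.toMul : commutator G) : G)) (h : TypeTwo (g i) a) :
    NPHardP (SubsetSum g) :=
  (hardPr_EC.trans (Pr' := fun _ => True) (poly_f2 i A) (fun _ _ => trivial)
    (f2_iff hA h)).toHardI.toNPHardP

omit [Metab G] in
theorem exists_word (hg : Subgroup.closure (Set.range g) = ⊤) (x : G) :
    ∃ A : List (Fin n × Bool), wval g A = x := by
  let K : Subgroup G :=
    { carrier := {x | ∃ A : List (Fin n × Bool), wval g A = x}
      mul_mem' := by
        rintro _ _ ⟨A, rfl⟩ ⟨B, rfl⟩
        exact ⟨A ++ B, wval_append g A B⟩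
      one_mem' := ⟨[], rfl⟩
      inv_mem' := by
        rintro _ ⟨A, rfl⟩
        exact ⟨winv A, wval_winv g A⟩ }
  have hK : Subgroup.closure (Set.range g) ≤ K := by
    rw [Subgroup.closure_le]
    rintro _ ⟨j, rfl⟩
    exact ⟨[(j, true)], by simp [wval, lval]⟩
  rw [hg] at hK
  exact hK (Subgroup.mem_top x)

theorem npHardP_subsetSum (hg : Subgroup.closure (Set.range g) = ⊤)
    (hnot : ¬ ∃ H : Subgroup G, H.FiniteIndex ∧ Group.IsNilpotent H) :
    NPHardP (SubsetSum g) := by
  obtain ⟨i, a, h⟩ := exists_types hg hnot
  obtain ⟨A, hA⟩ := exists_word hg ((a.toMul : commutator G) : G)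
  rcases h with h | h
  · exact hard_zero hA h
  · exact hard_two hA h

end two

end Pool.Agent.NPC.SSP648
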