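import Pool.Agent.H648R3.SSP.Flow
import Pool.Agent.H648R3.SSP.NumTh

/-!
# The commutator subgroup of a metabelian group as a module
-/

namespace Pool.Agent.H648R3.SSP

section alg

variable {R V : Type*} [CommRing R] [IsNoetherianRing R] [AddCommGroup V] [Module R V]
  [Module.Finite R V]

theorem mem_radical_of_forall (r : R) (h : ∀ P ∈ associatedPrimes R V, r ∈ P) :
    r ∈ (Module.annihilator R V).radical := by
  have : IsNoetherian R V := isNoetherian_of_isNoetherianRing_of_finite R V
  let F : ℕ →o Submodule R V := ⟨fun k => LinearMap.ker (LinearMap.lsmul R V (r ^ k)),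
    monotone_nat_of_le_succ fun k v hv => by
      simp only [LinearMap.mem_ker, LinearMap.lsmul_apply] at hv ⊢
      rw [pow_succ', mul_smul, hv, smul_zero]⟩
  obtain ⟨k, hk⟩ := monotone_stabilizes_iff_noetherian.2 this F
  refine ⟨k, Module.mem_annihilator.2 fun v => ?_⟩
  by_contra hne
  obtain ⟨P, hP, hPle⟩ := exists_le_isAssociatedPrime_of_isNoetherianRing R
    (M := LinearMap.range (LinearMap.lsmul R V (r ^ k)))
    ⟨r ^ k • v, v, rfl⟩ (fun h0 => hne (congrArg Subtype.val h0))
  have hPV : IsAssociatedPrime P V := hP.map_of_injective (Submodule.subtype _)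
    (Submodule.subtype_injective _)
  have hr := h P hPV
  rw [isAssociatedPrime_iff] at hP
  obtain ⟨hPp, ⟨x, ⟨y, hy⟩⟩, hx⟩ := hP
  rw [hx, Submodule.mem_colon_singleton, Submodule.mem_bot] at hr
  have h1 : r • x = 0 := congrArg Subtype.val hr
  have hy' : r ^ k • y = x := hy
  have h2 : y ∈ F (k + 1) := by
    change LinearMap.lsmul R V (r ^ (k + 1)) y = 0
    rw [LinearMap.lsmul_apply, pow_succ', mul_smul, hy', h1]
  rw [← hk (k + 1) (by omega)] at h2
  have h3 : r ^ k • y = 0 := h2
  rw [hy'] at h3
  apply hPp.ne_top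
  rw [hx, Ideal.eq_top_iff_one, Submodule.mem_colon_singleton, one_smul, Submodule.mem_bot]
  exact Subtype.ext h3

/-- If no power minus one of `u` is nilpotent on the module, then the same prime works for all. -/
theorem exists_prime (u : R) (h : ∀ m, 1 ≤ m → u ^ m - 1 ∉ (Module.annihilator R V).radical) :
    ∃ a : V, ∃ P : Ideal R, P.IsPrime ∧ (∀ r, r ∈ P ↔ r • a = 0) ∧
      ∀ m, 1 ≤ m → u ^ m - 1 ∉ P := by
  by_contra hcon
  have h1 : ∀ P ∈ associatedPrimes R V, ∃ m, 1 ≤ m ∧ u ^ m - 1 ∈ P := by
    intro P hP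
    by_contra hne
    push Not at hne
    obtain ⟨hP, a, ha⟩ := isAssociatedPrime_iff.1 hP
    exact hcon ⟨a, P, hP, fun r => by
      rw [ha, Submodule.mem_colon_singleton, Submodule.mem_bot], hne⟩
  choose! m hm1 hm2 using h1
  have hfin := associatedPrimes.finite R V
  refine h (∏ P ∈ hfin.toFinset, m P) (Nat.succ_le_of_lt (Finset.prod_pos fun P hP =>
    hm1 P (hfin.mem_toFinset.1 hP))) (mem_radical_of_forall _ fun P hP => ?_)
  obtain ⟨c, hc⟩ := Finset.dvd_prod_of_mem m (hfin.mem_toFinset.2 hP)
  rw [hc]
  refine P.mem_of_dvd ?_ (hm2 P hP)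
  rw [pow_mul]
  simpa using sub_dvd_pow_sub_pow (u ^ m P) 1 c

end alg

section group

variable {G : Type*} [Group G] [Metab G]

theorem cj_mul (x y : G) : cj (x * y) = (cj x).comp (cj y) := by
  ext a
  change ((cj (x * y) (Additive.ofMul a)).toMul : G) = _
  rw [cj_apply]
  change _ = ((cj x (Additive.ofMul (cj y (Additive.ofMul a)).toMul)).toMul : G)
  rw [cj_apply, cj_apply]
  group

theorem cj_of_mem {x : G} (hx : x ∈ commutator G) : cj x = AddMonoidHom.id _ := by
  ext a
  change ((cj x (Additive.ofMul a)).toMul : G) = (a : G)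
  rw [cj_apply, Metab.comm x hx _ a.2, mul_inv_cancel_right]

theorem cj_one : cj (1 : G) = AddMonoidHom.id _ := cj_of_mem (Subgroup.one_mem _)

/-- The conjugation action of the abelianization. -/
noncomputable def actHom : Abelianization G →* Module.End ℤ (Additive (commutator G)) :=
  QuotientGroup.lift (commutator G)
    { toFun := fun x => (cj x).toIntLinearMap
      map_one' := by rw [cj_one]; rfl
      map_mul' := fun x y => by rw [cj_mul]; rfl }
    (fun x hx => by
      rw [MonoidHom.mem_ker]
      change (cj x).toIntLinearMap = _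
      rw [cj_of_mem hx]; rfl)

theorem actHom_of (x : G) (v : Additive (commutator G)) :
    actHom (Abelianization.of x) v = cj x v := rfl

variable (G) in
/-- The group ring. -/
abbrev GR := MonoidAlgebra ℤ (Abelianization G)

/-- The module structure. -/
noncomputable instance instGR : Module (GR G) (Additive (commutator G)) :=
  Module.compHom _ (MonoidAlgebra.lift ℤ (Module.End ℤ (Additive (commutator G)))
    (Abelianization G) actHom).toRingHom

/-- The unit of the group ring given by a group element. -/
noncomputable def un (x : G) : GR G := MonoidAlgebra.single (Abelianization.of x) 1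

theorem un_smul (x : G) (v : Additive (commutator G)) : un x • v = cj x v := by
  change (MonoidAlgebra.lift ℤ (Module.End ℤ (Additive (commutator G)))
    (Abelianization G) actHom) (MonoidAlgebra.single (Abelianization.of x) 1) v = _
  rw [MonoidAlgebra.lift_single, one_smul, actHom_of]

theorem un_mul (x y : G) : un (x * y) = un x * un y := by
  simp [un, MonoidAlgebra.single_mul_single]

theorem un_one : un (1 : G) = 1 := by
  simp [un, MonoidAlgebra.one_def]

/-- The subgroup given by a submodule. -/
def subOf (W : Submodule (GR G) (Additive (commutator G))) : Subgroup G where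
  carrier := {x | ∃ h : x ∈ commutator G, Additive.ofMul (⟨x, h⟩ : commutator G) ∈ W}
  mul_mem' := by
    rintro a b ⟨ha, ha'⟩ ⟨hb, hb'⟩
    exact ⟨Subgroup.mul_mem _ ha hb, W.add_mem ha' hb'⟩
  one_mem' := ⟨Subgroup.one_mem _, W.zero_mem⟩
  inv_mem' := by
    rintro a ⟨ha, ha'⟩
    exact ⟨Subgroup.inv_mem _ ha, W.neg_mem ha'⟩

theorem mem_subOf {W : Submodule (GR G) (Additive (commutator G))} {x : G} :
    x ∈ subOf W ↔ ∃ h : x ∈ commutator G, Additive.ofMul (⟨x, h⟩ : commutator G) ∈ W := Iff.rfl

theorem cj_ofMul_mk (x y : G) (h : y ∈ commutator G) (h' : x * y * x⁻¹ ∈ commutator G) :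
    cj x (Additive.ofMul (⟨y, h⟩ : commutator G)) =
      Additive.ofMul (⟨x * y * x⁻¹, h'⟩ : commutator G) := rfl

instance subOf_normal (W : Submodule (GR G) (Additive (commutator G))) : (subOf W).Normal where
  conj_mem := by
    rintro y ⟨h, h'⟩ x
    have h2 : x * y * x⁻¹ ∈ commutator G := Subgroup.Normal.conj_mem inferInstance y h x
    refine ⟨h2, ?_⟩
    rw [← cj_ofMul_mk x y h h2, ← un_smul]
    exact W.smul_mem _ h'

variable {n : ℕ} {g : Fin n → G} (hg : Subgroup.closure (Set.range g) = ⊤)

include hg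

theorem commutator_le_subOf {W : Submodule (GR G) (Additive (commutator G))}
    (hW : ∀ i j, g i * g j * (g i)⁻¹ * (g j)⁻¹ ∈ subOf W) : commutator G ≤ subOf W := by
  have hcl : ∀ K : Subgroup G, (∀ i, g i ∈ K) → ∀ x, x ∈ K := by
    intro K hK x
    have : Subgroup.closure (Set.range g) ≤ K := by
      rw [Subgroup.closure_le]
      rintro _ ⟨i, rfl⟩
      exact hK i
    rw [hg] at this
    exact this (Subgroup.mem_top x)
  let π := QuotientGroup.mk' (subOf W)
  have h1 : ∀ i j, π (g i) * π (g j) = π (g j) * π (g i) := by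
    intro i j
    rw [← map_mul, ← map_mul]
    have h2 : g i * g j = (g i * g j * (g i)⁻¹ * (g j)⁻¹) * (g j * g i) := by group
    rw [h2, map_mul]
    have h3 : π (g i * g j * (g i)⁻¹ * (g j)⁻¹) = 1 := (QuotientGroup.eq_one_iff _).2 (hW i j)
    rw [h3, one_mul]
  have h2 : ∀ x i, π x * π (g i) = π (g i) * π x := by
    intro x i
    have := hcl (Subgroup.comap π (Subgroup.centralizer {π (g i)})) (fun j => by
      rw [Subgroup.mem_comap, Subgroup.mem_centralizer_iff]
      rintro h rfl
      exact h1 i j) x
    rw [Subgroup.mem_comap, Subgroup.mem_centralizer_iff] at this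
    exact (this _ rfl).symm
  have h3 : ∀ x y, π x * π y = π y * π x := by
    intro x y
    have := hcl (Subgroup.comap π (Subgroup.centralizer {π x})) (fun j => by
      rw [Subgroup.mem_comap, Subgroup.mem_centralizer_iff]
      rintro h rfl
      exact h2 x j) y
    rw [Subgroup.mem_comap, Subgroup.mem_centralizer_iff] at this
    exact this _ rfl
  rw [commutator_def, Subgroup.commutator_le]
  intro x _ y _
  rw [← QuotientGroup.eq_one_iff]
  change π (x * y * x⁻¹ * y⁻¹) = 1
  rw [map_mul, map_mul, map_mul, map_inv, map_inv, h3 x y]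
  group

theorem finite_module : Module.Finite (GR G) (Additive (commutator G)) := by
  let S : Set (Additive (commutator G)) := Set.range fun p : Fin n × Fin n =>
    Additive.ofMul (⟨g p.1 * g p.2 * (g p.1)⁻¹ * (g p.2)⁻¹, by
      rw [← of_eq_one]; simp⟩ : commutator G)
  have hS : S.Finite := Set.finite_range _
  refine ⟨⟨hS.toFinset, ?_⟩⟩
  rw [hS.coe_toFinset, eq_top_iff]
  intro v _
  have h := commutator_le_subOf hg (W := Submodule.span (GR G) S) (fun i j => ⟨by
    rw [← of_eq_one]; simp, Submodule.subset_span ⟨(i, j), rfl⟩⟩)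
  obtain ⟨h1, h2⟩ := h v.toMul.2
  exact h2

theorem fg_ab : Group.FG (Abelianization G) := by
  have : Group.FG G := Group.fg_iff.2 ⟨Set.range g, hg, Set.finite_range g⟩
  exact QuotientGroup.fg (commutator G)

theorem noeth_GR : IsNoetherianRing (GR G) := by
  have := fg_ab hg
  have : Monoid.FG (Abelianization G) := Group.fg_iff_monoid_fg.1 this
  have : Algebra.FiniteType ℤ (GR G) := MonoidAlgebra.finiteType_of_fg
  exact Algebra.FiniteType.isNoetherianRing ℤ (GR G)

/-- If all generators act virtually unipotently then the group is virtually nilpotent. -/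
theorem virt_nilp (h : ∀ i, ∃ m, 1 ≤ m ∧
    un (g i) ^ m - 1 ∈ (Module.annihilator (GR G) (Additive (commutator G))).radical) :
    ∃ H : Subgroup G, H.FiniteIndex ∧ Group.IsNilpotent H := by
  have hN := noeth_GR hg
  have hF := fg_ab hg
  choose m hm1 hm2 using h
  let M := ∏ i, m i
  have hM : 1 ≤ M := Nat.succ_le_of_lt (Finset.prod_pos fun i _ => hm1 i)
  let I : Ideal (GR G) := Ideal.span (Set.range fun i => un (g i) ^ M - 1)
  have hI : I ≤ (Module.annihilator (GR G) (Additive (commutator G))).radical := by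
    rw [Ideal.span_le]
    rintro _ ⟨i, rfl⟩
    obtain ⟨c, hc⟩ := Finset.dvd_prod_of_mem m (Finset.mem_univ i)
    refine Ideal.mem_of_dvd _ ?_ (hm2 i)
    change un (g i) ^ m i - 1 ∣ un (g i) ^ (∏ i, m i) - 1
    rw [hc, pow_mul]
    simpa using sub_dvd_pow_sub_pow (un (g i) ^ m i) 1 c
  obtain ⟨k, hk⟩ := Ideal.exists_pow_le_of_le_radical_of_fg hI
    ((isNoetherianRing_iff_ideal_fg _).1 hN I)
  have hgen : ∀ y : G, un y ^ M - 1 ∈ I := by
    intro y
    let K : Subgroup G :=
      { carrier := {y | un y ^ M - 1 ∈ I}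
        mul_mem' := by
          intro a b ha hb
          change un (a * b) ^ M - 1 ∈ I
          have : un (a * b) ^ M - 1 = un a ^ M * (un b ^ M - 1) + (un a ^ M - 1) := by
            rw [un_mul, mul_pow]; ring
          rw [this]
          exact I.add_mem (I.mul_mem_left _ hb) ha
        one_mem' := by
          change un (1 : G) ^ M - 1 ∈ I
          rw [un_one, one_pow, sub_self]
          exact I.zero_mem
        inv_mem' := by
          intro a ha
          change un (a⁻¹) ^ M - 1 ∈ I
          have h1 : un (a⁻¹) ^ M * un a ^ M = 1 := by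
            rw [← mul_pow, ← un_mul, inv_mul_cancel, un_one, one_pow]
          have : un (a⁻¹) ^ M - 1 = - un (a⁻¹) ^ M * (un a ^ M - 1) := by
            linear_combination h1
          rw [this]
          exact I.mul_mem_left _ ha }
    have hK : Subgroup.closure (Set.range g) ≤ K := by
      rw [Subgroup.closure_le]
      rintro _ ⟨i, rfl⟩
      exact Ideal.subset_span ⟨i, rfl⟩
    rw [hg] at hK
    exact hK (Subgroup.mem_top y)
  let Q : Subgroup (Abelianization G) := (powMonoidHom M).range
  let H : Subgroup G := Q.comap Abelianization.of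
  have hH : ∀ x ∈ H, un x - 1 ∈ I := by
    rintro x ⟨y, hy⟩
    obtain ⟨y, rfl⟩ := of_surj y
    have h1 : un x = un y ^ M := by
      rw [un, un, MonoidAlgebra.single_pow, one_pow]
      congr 1
      exact hy.symm
    rw [h1]
    exact hgen y
  refine ⟨H, ?_, ?_⟩
  · have h1 : Finite (Abelianization G ⧸ Q) := by
      have : Group.FG (Abelianization G ⧸ Q) := QuotientGroup.fg Q
      refine CommGroup.finite_of_fg_isMulTorsion _ ?_
      intro x
      obtain ⟨x, rfl⟩ := QuotientGroup.mk_surjective x
      rw [isOfFinOrder_iff_pow_eq_one]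
      refine ⟨M, hM, ?_⟩
      rw [← QuotientGroup.mk_pow, QuotientGroup.eq_one_iff]
      exact ⟨x, rfl⟩
    refine ⟨?_⟩
    rw [Subgroup.index_comap_of_surjective _ of_surj]
    exact Subgroup.index_ne_zero_of_finite
  · rw [Subgroup.nilpotent_iff_finite_descending_central_series]
    refine ⟨k + 1, fun j => match j with
      | 0 => ⊤
      | j + 1 => (subOf (I ^ j • (⊤ : Submodule (GR G) (Additive (commutator G))))).subgroupOf H,
      ⟨rfl, ?_⟩, ?_⟩
    · intro x j hx y
      have hc : (x : G) * y * (x : G)⁻¹ * (y : G)⁻¹ ∈ commutator G := by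
        rw [← of_eq_one]; simp
      cases j with
      | zero =>
        refine ⟨hc, ?_⟩
        rw [pow_zero, one_smul]
        trivial
      | succ j =>
        obtain ⟨h1, h2⟩ := hx
        refine ⟨hc, ?_⟩
        have h3 : Additive.ofMul (⟨(x : G) * y * (x : G)⁻¹ * (y : G)⁻¹, hc⟩ : commutator G) =
            -((un (y : G) - 1) • Additive.ofMul (⟨(x : G), h1⟩ : commutator G)) := by
          rw [sub_smul, one_smul, neg_sub, un_smul, sub_eq_add_neg, ← map_neg]
          apply Additive.toMul.injective
          apply Subtype.ext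
          change (x : G) * y * (x : G)⁻¹ * (y : G)⁻¹ = (x : G) * ((cj (y : G) (Additive.ofMul
            (⟨(x : G), h1⟩⁻¹ : commutator G))).toMul : G)
          rw [cj_apply]
          change _ = (x : G) * ((y : G) * (x : G)⁻¹ * (y : G)⁻¹)
          group
        change Additive.ofMul (⟨(x : G) * y * (x : G)⁻¹ * (y : G)⁻¹, hc⟩ : commutator G) ∈ _
        rw [h3, pow_succ', ← smul_eq_mul, Submodule.smul_assoc]
        exact Submodule.neg_mem _ (Submodule.smul_mem_smul (hH y y.2) h2)
    · rw [eq_bot_iff]
      rintro x ⟨h1, h2⟩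
      have h3 : I ^ k • (⊤ : Submodule (GR G) (Additive (commutator G))) ≤ ⊥ := by
        rw [Submodule.smul_le]
        intro r hr v _
        rw [Submodule.mem_bot]
        exact Module.mem_annihilator.1 (hk hr) v
      have h4 := h3 h2
      rw [Submodule.mem_bot] at h4
      rw [Subgroup.mem_bot]
      apply Subtype.ext
      exact congrArg (fun v => ((Additive.toMul v : commutator G) : G)) h4

/-- The element and the prime. -/
theorem exists_struct (hnot : ¬ ∃ H : Subgroup G, H.FiniteIndex ∧ Group.IsNilpotent H) :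
    ∃ (i : Fin n) (a : Additive (commutator G)) (P : Ideal (GR G)), P.IsPrime ∧
      (∀ r, r ∈ P ↔ r • a = 0) ∧ ∀ m, 1 ≤ m → un (g i) ^ m - 1 ∉ P := by
  have hN := noeth_GR hg
  have hM := finite_module hg
  have h1 : ∃ i, ∀ m, 1 ≤ m →
      un (g i) ^ m - 1 ∉ (Module.annihilator (GR G) (Additive (commutator G))).radical := by
    by_contra hcon
    push Not at hcon
    exact hnot (virt_nilp hg hcon)
  obtain ⟨i, hi⟩ := h1
  obtain ⟨a, P, h2, h3, h4⟩ := exists_prime (V := Additive (commutator G)) (un (g i)) hi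
  exact ⟨i, a, P, h2, h3, h4⟩

end group

end Pool.Agent.H648R3.SSP
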